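import Pool.Agent.ETC.Char

/-!
The positive definite argument of Theorem S / L' (helper46): a family of subspaces `U i` of a
finite space `X`, `M x = #{i : x ∈ U i}`; if for every functional `l` and every `t ∈ ker l` the sum
of `(-1)^{l x} M x M (x + t)` is nonnegative, then the functionals killing some `U i` form a group.
-/

set_option autoImplicit false
set_option linter.unusedSectionVars false

namespace Pool.Agent.ETPR

open ETC

variable {X : Type} [AddCommGroup X] [Module (ZMod 2) X]

theorem ind_mul_ind (P R : Prop) : ind P * ind R = ind (P ∧ R) := (ind_and P R).symm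

theorem sum_ind_sub [Fintype X] (W : Submodule (ZMod 2) X) [Fintype W] (g : X → ℤ) :
    ∑ x, g x * ind (x ∈ W) = ∑ x : W, g x := by
  classical
  have : ∀ x, g x * ind (x ∈ W) = if x ∈ W then g x else 0 := by
    intro x
    by_cases h : x ∈ W
    · rw [ind_true h, mul_one, if_pos h]
    · rw [ind_false h, mul_zero, if_neg h]
  simp only [this]
  rw [← Finset.sum_filter]
  exact (Finset.sum_subtype (Finset.univ.filter (· ∈ W)) (by simp) _)

/-- the character sum over a subspace -/
theorem sub_sum [Fintype X] (W : Submodule (ZMod 2) X) (l : D X) :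
    ∑ x, sg (l x) * ind (x ∈ W) = (Nat.card W : ℤ) * ind (W ≤ LinearMap.ker l) := by
  have hW := Fintype.ofFinite W
  have h := sum_sg (V := W) (l.comp W.subtype)
  simp only [LinearMap.comp_apply, Submodule.subtype_apply] at h
  rw [sum_ind_sub, h, Nat.card_eq_fintype_card]
  congr 1
  apply ind_congr
  constructor
  · intro h0 x hx
    exact LinearMap.congr_fun h0 ⟨x, hx⟩
  · intro h0
    ext x
    exact h0 x.2

theorem sub_sum_nonneg [Fintype X] (W : Submodule (ZMod 2) X) (l : D X) :
    0 ≤ ∑ x, sg (l x) * ind (x ∈ W) := by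
  rw [sub_sum]
  exact mul_nonneg (Int.natCast_nonneg _) (ind_nonneg _)

theorem sub_sum_zero [Fintype X] {W : Submodule (ZMod 2) X} {l : D X}
    (h : ∑ x, sg (l x) * ind (x ∈ W) = 0) : ¬ W ≤ LinearMap.ker l := by
  intro hW
  rw [sub_sum, ind_true hW, mul_one] at h
  have : 0 < Nat.card W := Nat.card_pos
  omega

theorem sub_sum_of_not [Fintype X] {W : Submodule (ZMod 2) X} {l : D X}
    (h : ¬ W ≤ LinearMap.ker l) : ∑ x, sg (l x) * ind (x ∈ W) = 0 := by
  rw [sub_sum, ind_false h, mul_zero]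

variable {I : Type} [Fintype I]

/-- the number of the members of the family containing `x` -/
noncomputable def MU (U : I → Submodule (ZMod 2) X) (x : X) : ℤ := ∑ i, ind (x ∈ U i)

theorem sum_MU [Fintype X] {U : I → Submodule (ZMod 2) X} {l : D X}
    (h : ∀ i, ¬ U i ≤ LinearMap.ker l) : ∑ x, sg (l x) * MU U x = 0 := by
  unfold MU
  simp only [Finset.mul_sum]
  rw [Finset.sum_comm]
  exact Finset.sum_eq_zero fun i _ => sub_sum_of_not (h i)

theorem two_ind (a b : ZMod 2) : 2 * ind (a + b = 0) = 1 + sg a * sg b := by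
  rcases zm a with rfl | rfl <;> rcases zm b with rfl | rfl
  · rw [ind_true (by decide)]; decide
  · rw [ind_false (by decide)]; decide
  · rw [ind_false (by decide)]; decide
  · rw [ind_true (by decide)]; decide

theorem sg_mul_self (a : ZMod 2) : sg a * sg a = 1 := by
  rcases zm a with rfl | rfl <;> decide

/-- the sum over the kernel -/
theorem sum_ker [Fintype X] {U : I → Submodule (ZMod 2) X} {l : D X}
    (h : ∀ i, ¬ U i ≤ LinearMap.ker l) :
    ∑ t, ind (l t = 0) * ∑ x, sg (l x) * (MU U x * MU U (x + t)) = 0 := by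
  have h0 := sum_MU h
  have e1 : ∀ x, ∑ t, ind (l t = 0) * (sg (l x) * (MU U x * MU U (x + t))) =
      ∑ y, ind (l x + l y = 0) * (sg (l x) * (MU U x * MU U y)) := by
    intro x
    have h1 := Equiv.sum_comp (Equiv.addLeft x)
      (fun y => ind (l x + l y = 0) * (sg (l x) * (MU U x * MU U y)))
    rw [← h1]
    refine Finset.sum_congr rfl fun t _ => ?_
    rw [Equiv.coe_addLeft, map_add, ← add_assoc, ZModModule.add_self, zero_add]
  have e2 : ∑ t, ind (l t = 0) * ∑ x, sg (l x) * (MU U x * MU U (x + t)) =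
      ∑ x, ∑ y, ind (l x + l y = 0) * (sg (l x) * (MU U x * MU U y)) := by
    simp only [Finset.mul_sum]
    rw [Finset.sum_comm]
    exact Finset.sum_congr rfl fun x _ => e1 x
  have e3 : 2 * ∑ x, ∑ y, ind (l x + l y = 0) * (sg (l x) * (MU U x * MU U y)) =
      ∑ x, ∑ y, (sg (l x) * MU U x * MU U y + MU U x * (sg (l y) * MU U y)) := by
    simp only [Finset.mul_sum]
    refine Finset.sum_congr rfl fun x _ => Finset.sum_congr rfl fun y _ => ?_
    have h2 := two_ind (l x) (l y)
    have h3 := sg_mul_self (l x)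
    linear_combination (sg (l x) * (MU U x * MU U y)) * h2 +
      (sg (l y) * MU U x * MU U y) * h3
  have e4 : ∑ x, ∑ y, (sg (l x) * MU U x * MU U y + MU U x * (sg (l y) * MU U y)) = 0 := by
    simp only [Finset.sum_add_distrib, ← Finset.mul_sum, ← Finset.sum_mul]
    rw [h0]
    ring
  rw [e2]
  omega

/-- the sum at `t = 0` -/
theorem sum_sq [Fintype X] (U : I → Submodule (ZMod 2) X) (l : D X) :
    ∑ x, sg (l x) * (MU U x * MU U x) = ∑ i, ∑ j, ∑ x, sg (l x) * ind (x ∈ U i ⊓ U j) := by
  have e : ∀ x, MU U x * MU U x = ∑ i, ∑ j, ind (x ∈ U i ⊓ U j) := by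
    intro x
    unfold MU
    rw [Finset.sum_mul_sum]
    refine Finset.sum_congr rfl fun i _ => Finset.sum_congr rfl fun j _ => ?_
    rw [ind_mul_ind, Submodule.mem_inf]
  simp only [e, Finset.mul_sum]
  rw [Finset.sum_comm]
  refine Finset.sum_congr rfl fun i _ => ?_
  rw [Finset.sum_comm]

theorem sum_sq_nonneg [Fintype X] (U : I → Submodule (ZMod 2) X) (l : D X) :
    0 ≤ ∑ x, sg (l x) * (MU U x * MU U x) := by
  rw [sum_sq]
  exact Finset.sum_nonneg fun i _ => Finset.sum_nonneg fun j _ => sub_sum_nonneg _ _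

/-- **a functional outside the support kills no intersection of two members** -/
theorem not_inf [Fintype X] {U : I → Submodule (ZMod 2) X} {l : D X}
    (h : ∀ i, ¬ U i ≤ LinearMap.ker l)
    (H : ∀ t, l t = 0 → 0 ≤ ∑ x, sg (l x) * (MU U x * MU U (x + t))) (i j : I) :
    ¬ U i ⊓ U j ≤ LinearMap.ker l := by
  have h1 := sum_ker h
  rw [Finset.sum_eq_zero_iff_of_nonneg (fun t _ => by
    by_cases ht : l t = 0
    · rw [ind_true ht, one_mul]; exact H t ht
    · rw [ind_false ht, zero_mul])] at h1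
  have h2 := h1 0 (Finset.mem_univ _)
  rw [ind_true (map_zero l), one_mul] at h2
  simp only [add_zero] at h2
  rw [sum_sq, Finset.sum_eq_zero_iff_of_nonneg (fun i _ => Finset.sum_nonneg fun j _ =>
    sub_sum_nonneg _ _)] at h2
  have h4 := h2 i (Finset.mem_univ _)
  rw [Finset.sum_eq_zero_iff_of_nonneg (fun j _ => sub_sum_nonneg _ _)] at h4
  exact sub_sum_zero (h4 j (Finset.mem_univ _))

/-- **the hub**: if in addition `al` kills no member of the family, some `x0` with `al x0 = 1`
lies in all members -/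
theorem exists_hub [Finite X] [Nonempty I] {U : I → Submodule (ZMod 2) X} {al : D X}
    (hal : ∀ i, ¬ U i ≤ LinearMap.ker al)
    (H : ∀ (_ : Fintype X) (l : D X) (t : X), l t = 0 → (∀ i, ¬ U i ≤ LinearMap.ker l) →
      0 ≤ ∑ x, sg (l x) * (MU U x * MU U (x + t))) :
    ∃ x0, al x0 = 1 ∧ ∀ i, x0 ∈ U i := by
  have hF := Fintype.ofFinite X
  let P : Submodule (ZMod 2) (D X) :=
    { carrier := {l | ∃ i, U i ≤ LinearMap.ker l}
      add_mem' := by
        rintro l1 l2 ⟨i, hi⟩ ⟨j, hj⟩
        by_contra hcon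
        have hcon' : ∀ k, ¬ U k ≤ LinearMap.ker (l1 + l2) := fun k hk => hcon ⟨k, hk⟩
        refine not_inf hcon' (fun t ht => H hF _ t ht hcon') i j fun x hx => ?_
        rw [LinearMap.mem_ker, LinearMap.add_apply, hi hx.1, hj hx.2, add_zero]
      zero_mem' := ⟨Classical.arbitrary I, fun x _ => rfl⟩
      smul_mem' := by
        rintro r l ⟨i, hi⟩
        exact ⟨i, fun x hx => by
          rw [LinearMap.mem_ker, LinearMap.smul_apply, hi hx, smul_zero]⟩ }
  have hP : al ∉ P := fun ⟨i, hi⟩ => hal i hi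
  obtain ⟨F, hF1, hF2⟩ := exists_dual_sep hP
  obtain ⟨x0, rfl⟩ := (Module.evalEquiv (ZMod 2) X).surjective F
  rw [Module.evalEquiv_apply, Module.Dual.eval_apply] at hF1
  refine ⟨x0, hF1, fun i => ?_⟩
  by_contra hcon
  obtain ⟨l, h1, h2⟩ := exists_dual_sep hcon
  have h3 := hF2 l ⟨i, fun x hx => h2 x hx⟩
  rw [Module.evalEquiv_apply, Module.Dual.eval_apply, h1] at h3
  exact one_ne_zero h3

/-! ### counting -/

theorem card_sup_inf [Finite X] (A B : Submodule (ZMod 2) X) :
    Nat.card A * Nat.card B = Nat.card ↥(A ⊔ B) * Nat.card ↥(A ⊓ B) := by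
  have h1 := Module.natCard_eq_pow_finrank (K := ZMod 2) (V := A)
  have h2 := Module.natCard_eq_pow_finrank (K := ZMod 2) (V := B)
  have h3 := Module.natCard_eq_pow_finrank (K := ZMod 2) (V := ↥(A ⊔ B))
  have h4 := Module.natCard_eq_pow_finrank (K := ZMod 2) (V := ↥(A ⊓ B))
  rw [h1, h2, h3, h4, ← pow_add, ← pow_add, Submodule.finrank_sup_add_finrank_inf_eq]

theorem sum_ind_card [Fintype X] (A : Submodule (ZMod 2) X) :
    ∑ x, ind (x ∈ A) = (Nat.card A : ℤ) := by
  have hA := Fintype.ofFinite A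
  have h := sum_ind_sub A (fun _ => (1 : ℤ))
  simp only [one_mul] at h
  rw [h, Nat.card_eq_fintype_card]
  simp

end Pool.Agent.ETPR
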