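import Pool.Agent.ETPR.S0
import Pool.Agent.ETE8.WChar

/-!
**THEOREM N** (helper35, helper30, helper59 on top of helper46's Theorem L'), set-valued: if the
slots of `c ≠ 0` span the whole space and for one slot `u` every `v` has `v` or `u + v` a slot of
`c`, there is a hub; impossible under `K4At`.  Linkage modulo `c` inside the stabiliser of the
slots (RED-a) is expressed in the Witt ring.
-/

set_option autoImplicit false
set_option linter.unusedSectionVars false
set_option linter.unusedSimpArgs false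
set_option linter.unnecessarySeqFocus false

namespace Pool.Agent.ETPR

open Pool.Agent.Helper58.PLine (QData)
open Pool.Agent.ETCP
open Pool.Agent.ETPF
open Pool.Agent.ETPG
open Pool.Agent.ETPT
open ETC (ind ind_true ind_false ind_and ind_congr ind_nonneg ind_le sum_ind_shift sg zm
  exists_dual_sep ph WR ph_add ph_zero ph_self ph_e prod_of_q_eq q_eq_zero_iff)

variable {V Q : Type} [AddCommGroup V] [Module (ZMod 2) V] {D : QData V Q}

/-- the product `(1 - x) (1 - y)` in the Witt ring -/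
noncomputable def pp (D : QData V Q) (x y : V) : WR D := (1 - ph D x) * (1 - ph D y)

theorem pp_comm (x y : V) : pp D x y = pp D y x := mul_comm _ _

theorem pp_add (x y m : V) : pp D (x + y) m = pp D x m + ph D x * pp D y m := by
  unfold pp
  rw [ph_add]
  ring

theorem pp_add' (x m n : V) : pp D x (m + n) = pp D x m + ph D m * pp D x n := by
  unfold pp
  rw [ph_add]
  ring

theorem prod_of_q_eq_pp {x y x' y' : V} (h : D.q x y = D.q x' y') : pp D x y = pp D x' y' :=
  prod_of_q_eq h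

theorem two_zero (he : D.e = 0) : (2 : WR D) = 0 := by
  have h := ph_e (S := D)
  rw [he, ph_zero] at h
  linear_combination h

/-- if `(1 - x)(1 - m)` is a multiple of `1 - t`, then `q (x, m)` is a value of `t` -/
theorem slot_of_mul (he : D.e = 0) {x m t : V} {r : WR D} (h : pp D x m = (1 - ph D t) * r) :
    ∃ w, D.q x m = D.q t w := by
  obtain ⟨l, hl⟩ := ETE8.exists_fm (S := D) r
  rw [hl] at h
  exact ETE8.slot_of_mem he l.length l rfl h

/-- the setting: `c = q (a, b)`, all of `V` in the span of the slots -/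
structure NS (D : QData V Q) (c : Q) (a b : V) : Prop where
  he : D.e = 0
  cne : c ≠ D.z
  hc : D.q a b = c
  sp : ∀ v, v ∈ Submodule.span (ZMod 2) {s | Sg D c s}

namespace NS

variable {c : Q} {a b : V}

/-- every element acts trivially on the product of `c` -/
theorem act (X : NS D c a b) (v : V) : ph D v * pp D a b = pp D a b := by
  obtain ⟨s, ⟨r, hr⟩, hs⟩ := cm_span X.he ⟨a, b, X.hc⟩ (X.sp v)
  have h1 : pp D a b = pp D s r := prod_of_q_eq (X.hc.trans hr.symm)
  have h2 : (1 - ph D s) * (1 - ph D v) = 0 := q_eq_zero_iff.1 hs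
  rw [h1]
  unfold pp
  linear_combination (-(1 - ph D r)) * h2

/-- the stabiliser of the slots -/
def St (D : QData V Q) (c : Q) (x : V) : Prop := ∀ s, Sg D c s → Sg D c (s + x)

theorem St.nslot (X : NS D c a b) {x : V} (h : St D c x) : ¬ Sg D c x := by
  intro hx
  obtain ⟨r, hr⟩ := h x hx
  rw [ZModModule.add_self, D.symm] at hr
  exact X.cne (hr.symm.trans (C.zero r))

/-- **(1)** every `m` is a slot modulo `V_x`, for `x` in the stabiliser -/
theorem slot_mod (X : NS D c a b) {x : V} (h : St D c x) (m : V) :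
    ∃ s, Sg D c s ∧ C D x (m + s) := by
  obtain ⟨r, hr, hm⟩ := cm_span X.he ⟨a, b, X.hc⟩ (X.sp m)
  obtain ⟨y, h1, h2⟩ := hr.common (h r hr)
  have h3 : C D x y := by
    have h4 : D.q r y = D.q (r + x) y := h1.trans h2.symm
    exact (q_eq'_iff.1 h4).of_eq (by rw [← add_assoc, ZModModule.add_self, zero_add]) rfl
  refine ⟨m + y, ?_, ?_⟩
  · rw [add_comm]
    exact Sg.right (qa h1 hm)
  · rwa [← add_assoc, ZModModule.add_self, zero_add]

/-- **RED-a** (helper59) -/
theorem red (X : NS D c a b) [Finite V] {x t m : V} {r : WR D} (hx : St D c x)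
    (ht : ¬ Sg D c t) (h : pp D x m + pp D a b = (1 - ph D t) * r) : False := by
  obtain ⟨s, hs, hms⟩ := X.slot_mod hx m
  have e1 : pp D x m = pp D x s := prod_of_q_eq (q_eq hms)
  rw [e1] at h
  obtain ⟨w0, hw0⟩ := hs
  have hs : Sg D c s := ⟨w0, hw0⟩
  have e2 : pp D a b = pp D w0 s := by
    rw [pp_comm w0]
    exact prod_of_q_eq (X.hc.trans hw0.symm)
  have e3 : pp D (w0 + x) s = pp D x s + pp D a b := by
    rw [pp_add, ← e2]
    have e4 : ph D x * pp D w0 s = pp D w0 s := by rw [← e2]; exact X.act x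
    have e5 : (1 - ph D w0) * pp D x s = 0 := by
      unfold pp at e4 ⊢
      linear_combination (-1 : WR D) * e4
    linear_combination (-1 : WR D) * e5
  rw [← e3] at h
  obtain ⟨n, hn⟩ := slot_of_mul X.he h
  rw [D.symm] at hn
  obtain ⟨w, h1, h2⟩ := D.link s (w0 + x) t n hn
  have h3 : C D s (w0 + x + w) := q_eq_iff.1 h1
  have h4 : D.q s w = D.q t w := by rw [← h1, hn, h2]
  have h5 : C D w (s + t) := (q_eq'_iff.1 h4).symm
  -- `w + V_s` consists of slots
  have h6 : ∀ d, C D s d → Sg D c (w + d) := by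
    intro d hd
    have h7 : D.q s (w0 + ((w0 + x + w) + d)) = c := qa hw0 (h3.add hd)
    have h8 := hx _ (Sg.right h7)
    have e6 : w0 + (w0 + x + w + d) + x = w + d := eo (by
      abel_nf <;> simp only [ch2, ch3, ch4, add_zero, zero_add])
    rwa [e6] at h8
  have sw : Sg D c w := by
    have := h6 0 (C.zero _)
    rwa [add_zero] at this
  have h9 := recip sw hs h6 h5
  rw [← add_assoc, ZModModule.add_self, zero_add] at h9
  exact ht h9

/-- `P_t (m) = {x : (1 - x)(1 - m) ∈ (1 - t) W + {0, c}}` -/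
noncomputable def PT (X : NS D c a b) (t m : V) : Submodule (ZMod 2) V where
  carrier := {x | ∃ r, pp D x m = (1 - ph D t) * r ∨ pp D x m + pp D a b = (1 - ph D t) * r}
  add_mem' := by
    rintro x y ⟨r, hr⟩ ⟨r', hr'⟩
    have h2 := two_zero X.he
    have h3 := X.act x
    rcases hr with hr | hr <;> rcases hr' with hr' | hr'
    · refine ⟨r + ph D x * r', Or.inl ?_⟩
      rw [pp_add]
      linear_combination hr + ph D x * hr'
    · refine ⟨r + ph D x * r', Or.inr ?_⟩
      rw [pp_add]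
      linear_combination hr + ph D x * hr' - h3
    · refine ⟨r + ph D x * r', Or.inr ?_⟩
      rw [pp_add]
      linear_combination hr + ph D x * hr'
    · refine ⟨r + ph D x * r', Or.inl ?_⟩
      rw [pp_add]
      linear_combination hr + ph D x * hr' - h3 - pp D a b * h2
  zero_mem' := ⟨0, Or.inl (by unfold pp; rw [ph_zero]; ring)⟩
  smul_mem' := by
    rintro k x hx
    rcases zm k with rfl | rfl
    · rw [zero_smul]
      exact ⟨0, Or.inl (by unfold pp; rw [ph_zero]; ring)⟩
    · rwa [one_smul]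

theorem mem_PT (X : NS D c a b) {t m x : V} : x ∈ X.PT t m ↔
    ∃ r, pp D x m = (1 - ph D t) * r ∨ pp D x m + pp D a b = (1 - ph D t) * r := Iff.rfl

theorem pp_of_mem (X : NS D c a b) {x y : V} (h : y ∈ MM D c x) :
    pp D x y = 0 ∨ pp D x y = pp D a b := by
  rcases h with h | h
  · exact Or.inl (q_eq_zero_iff.1 h)
  · exact Or.inr (prod_of_q_eq (h.trans X.hc.symm))

/-- splitting `m` along `V_x + V_{x + t}` -/
theorem split_of_q {x m t w : V} (h : D.q x m = D.q t w) :
    ∃ a b, a ∈ MM D c x ∧ b ∈ MM D c (x + t) ∧ a + b = m := by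
  obtain ⟨w', h1, h2⟩ := D.link x m t w h
  exact ⟨m + w', w', Or.inl (q_eq_iff.1 h1), Or.inl (q_eq'_iff.1 (by rw [← h1, ← h2, h])), by
    rw [add_assoc, ZModModule.add_self, add_zero]⟩

/-- linkage modulo `c` at `t` in the stabiliser -/
theorem sup_iffT (X : NS D c a b) [Finite V] {t x m : V} (ht : St D c t)
    (hx : Sg D c x ∨ St D c x) :
    (∃ y z, y ∈ MM D c x ∧ z ∈ MM D c (x + t) ∧ y + z = m) ↔ x ∈ X.PT t m := by
  rw [mem_PT]
  have h2 := two_zero X.he
  constructor
  · rintro ⟨y, z, hy, hz, rfl⟩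
    have e1 : pp D x (y + z) = pp D x y + ph D y * (pp D (x + t) z - ph D x * pp D t z) := by
      rw [pp_add', pp_add x t z]
      ring
    have e2 : pp D x (y + z) = pp D x y + ph D y * pp D (x + t) z +
        (1 - ph D t) * (-(ph D y * ph D x * (1 - ph D z))) := by
      rw [e1]
      unfold pp
      ring
    have h3 := X.act y
    refine ⟨-(ph D y * ph D x * (1 - ph D z)), ?_⟩
    rcases X.pp_of_mem hy with h | h <;> rcases X.pp_of_mem hz with h' | h' <;>
      rw [h, h'] at e2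
    · left; rw [e2]; ring
    · right; rw [e2]; linear_combination h3 + pp D a b * h2
    · right; rw [e2]; linear_combination pp D a b * h2
    · left; rw [e2]; linear_combination h3 + pp D a b * h2
  · rintro ⟨r, hr | hr⟩
    · obtain ⟨w, hw⟩ := slot_of_mul X.he hr
      exact split_of_q hw
    · rcases hx with hx | hx
      · obtain ⟨y, h4, h5⟩ := hx.common (ht x hx)
        have e1 : pp D x (m + y) = (1 - ph D t) * r := by
          rw [pp_add', prod_of_q_eq_pp (h4.trans X.hc.symm), X.act, hr]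
        obtain ⟨w, hw⟩ := slot_of_mul X.he e1
        obtain ⟨y', z', k1, k2, k3⟩ := split_of_q (c := c) hw
        refine ⟨y' + y, z', (MM D c x).add_mem k1 (Or.inr h4), k2, ?_⟩
        have e6 : y' + y + z' = (y' + z') + y := by abel
        rw [e6, k3, add_assoc, ZModModule.add_self, add_zero]
      · exact (X.red hx (ht.nslot X) hr).elim

/-- the product formula at `t` in the stabiliser -/
theorem prodT (Y : NS D c a b) [Finite V] {X : Submodule (ZMod 2) V}
    [Fintype (⊤ : Submodule (ZMod 2) V)] {t x : X}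
    (ht : St D c (t : V)) (hx : Sg D c (x : V) ∨ St D c (x : V)) :
    MU (Ug D c ⊤ X) x * MU (Ug D c ⊤ X) (x + t) =
      (∑ m : (⊤ : Submodule (ZMod 2) V), ind ((x : V) ∈ Y.PT t m)) *
        ∑ z : (⊤ : Submodule (ZMod 2) V), ind ((z : V) ∈ MM D c (t : V) ∧
          (x : V) ∈ MM D c (z : V)) := by
  let E : Submodule (ZMod 2) V := ⊤
  let A : Submodule (ZMod 2) E := (MM D c (x : V)).comap E.subtype
  let B : Submodule (ZMod 2) E := (MM D c ((x : V) + t)).comap E.subtype
  have hA : ∀ z : E, z ∈ A ↔ (z : V) ∈ MM D c (x : V) := fun z => Iff.rfl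
  have hB : ∀ z : E, z ∈ B ↔ (z : V) ∈ MM D c ((x : V) + t) := fun z => Iff.rfl
  have h1 : MU (Ug D c ⊤ X) x = (Nat.card A : ℤ) := by
    rw [← sum_ind_card]
    refine Finset.sum_congr rfl fun g _ => ind_congr ?_
    rw [mem_Ug, hA, mem_MM']
  have h2 : MU (Ug D c ⊤ X) (x + t) = (Nat.card B : ℤ) := by
    rw [← sum_ind_card]
    refine Finset.sum_congr rfl fun g _ => ind_congr ?_
    rw [mem_Ug, hB, mem_MM']
    rfl
  have h3 : (Nat.card ↥(A ⊔ B) : ℤ) =
      ∑ m : (⊤ : Submodule (ZMod 2) V), ind ((x : V) ∈ Y.PT t m) := by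
    rw [← sum_ind_card]
    refine Finset.sum_congr rfl fun m _ => ind_congr ?_
    rw [← Y.sup_iffT ht hx, Submodule.mem_sup]
    constructor
    · rintro ⟨a, ha, b, hb, rfl⟩
      exact ⟨a, b, ha, hb, rfl⟩
    · rintro ⟨a, b, h4, h5, h6⟩
      exact ⟨⟨a, Submodule.mem_top⟩, h4, ⟨b, Submodule.mem_top⟩, h5, Subtype.ext h6⟩
  have h4 : (Nat.card ↥(A ⊓ B) : ℤ) =
      ∑ z : (⊤ : Submodule (ZMod 2) V), ind ((z : V) ∈ MM D c (t : V) ∧
        (x : V) ∈ MM D c (z : V)) := by
    rw [← sum_ind_card]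
    refine Finset.sum_congr rfl fun z _ => ind_congr ?_
    rw [Submodule.mem_inf, hA, hB, ← mem_MM', and_comm]
    exact and_congr_left fun h => MM_inf (mem_MM'.1 h)
  rw [h1, h2, ← h3, ← h4]
  exact_mod_cast card_sup_inf A B

/-- the autocorrelation at `t` in the stabiliser is positive definite -/
theorem corrT (Y : NS D c a b) [Finite V] {X : Submodule (ZMod 2) V}
    [Fintype (⊤ : Submodule (ZMod 2) V)] [Fintype X] {t : X}
    (ht : St D c (t : V)) (hX : ∀ x : X, Sg D c (x : V) ∨ St D c (x : V)) (l : ETC.D X) :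
    0 ≤ ∑ x, sg (l x) * (MU (Ug D c ⊤ X) x * MU (Ug D c ⊤ X) (x + t)) := by
  have h1 : ∑ x, sg (l x) * (MU (Ug D c ⊤ X) x * MU (Ug D c ⊤ X) (x + t)) =
      ∑ m : (⊤ : Submodule (ZMod 2) V), ∑ z : (⊤ : Submodule (ZMod 2) V),
        ind ((z : V) ∈ MM D c (t : V)) *
        ∑ x : X, sg (l x) * ind (x ∈ (Y.PT t m).comap X.subtype ⊓ Ug D c ⊤ X z) := by
    have e : ∀ x : X, sg (l x) * (MU (Ug D c ⊤ X) x * MU (Ug D c ⊤ X) (x + t)) =
        ∑ m : (⊤ : Submodule (ZMod 2) V), ∑ z : (⊤ : Submodule (ZMod 2) V),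
          ind ((z : V) ∈ MM D c (t : V)) *
          (sg (l x) * ind (x ∈ (Y.PT t m).comap X.subtype ⊓ Ug D c ⊤ X z)) := by
      intro x
      rw [Y.prodT ht (hX x), Finset.sum_mul_sum, Finset.mul_sum]
      refine Finset.sum_congr rfl fun m _ => ?_
      rw [Finset.mul_sum]
      refine Finset.sum_congr rfl fun z _ => ?_
      rw [Submodule.mem_inf, ind_and, ind_and, mem_Ug, Submodule.mem_comap,
        Submodule.subtype_apply]
      ring
    simp only [e]
    rw [Finset.sum_comm]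
    refine Finset.sum_congr rfl fun m _ => ?_
    rw [Finset.sum_comm]
    refine Finset.sum_congr rfl fun z _ => ?_
    rw [Finset.mul_sum]
  rw [h1]
  exact Finset.sum_nonneg fun m _ => Finset.sum_nonneg fun z _ =>
    mul_nonneg (ind_nonneg _) (sub_sum_nonneg _ _)

/-- **Theorem S modulo `c`**, for a subspace `X` of slots and elements of the stabiliser, acting on
the whole space -/
theorem hub (Y : NS D c a b) [Finite V] {X : Submodule (ZMod 2) V}
    (hX : ∀ x : X, Sg D c (x : V) ∨ St D c (x : V)) (al : ETC.D X)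
    (hal : ∀ g : V, ∃ x : X, al x = 1 ∧ (x : V) ∈ MM D c g) :
    ∃ x : X, al x = 1 ∧ ∀ g : V, (x : V) ∈ MM D c g := by
  have := Fintype.ofFinite (⊤ : Submodule (ZMod 2) V)
  obtain ⟨x0, h1, h2⟩ := exists_hub (I := (⊤ : Submodule (ZMod 2) V)) (U := Ug D c ⊤ X)
    (al := al) (by
    intro g hg
    obtain ⟨x, h1, h2⟩ := hal g
    have h3 : x ∈ LinearMap.ker al := hg h2
    rw [LinearMap.mem_ker, h1] at h3
    exact one_ne_zero h3) (by
    intro _ l t _ _
    rcases hX t with h | h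
    · exact corr_nonneg h (fun _ _ _ _ => Submodule.mem_top) (fun _ => Or.inr (Or.inr rfl)) l
    · exact Y.corrT h hX l)
  exact ⟨x0, h1, fun g => h2 ⟨g, Submodule.mem_top⟩⟩

end NS

/-- **THEOREM N**: `u + N_c < S_c` for one slot `u` gives a hub (`D(c) = V`) -/
theorem exists_hub_N [Finite V] (he : D.e = 0) {c : Q} (cne : c ≠ D.z) {u : V} (su : Sg D c u)
    (hsp : ∀ v, v ∈ Submodule.span (ZMod 2) {s | Sg D c s})
    (hu : ∀ v, ¬ Sg D c v → Sg D c (u + v)) :
    ∃ x, D.q u x = c ∧ ∀ v, C D x v ∨ D.q x v = c := by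
  obtain ⟨r, hr⟩ := su
  have su : Sg D c u := ⟨r, hr⟩
  have Y : NS D c u r := ⟨he, cne, hr, hsp⟩
  have hX : ∀ x : MM D c u, Sg D c (x : V) ∨ NS.St D c (x : V) := by
    rintro ⟨x, hx | hx⟩
    · by_cases h : Sg D c x
      · exact Or.inl h
      · exact Or.inr fun s hs => stab_of_add su (fun _ d _ _ nd => hu d nd) hs hx h
    · exact Or.inl (Sg.right hx)
  have hr' : (⟨r, Or.inr hr⟩ : MM D c u) ∉ (D.ann u).comap (MM D c u).subtype := by
    intro h
    have h1 : D.q u r = D.z := h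
    exact cne (hr.symm.trans h1)
  obtain ⟨al, h1, h2⟩ := exists_dual_sep hr'
  have al1 : ∀ x : MM D c u, D.q u x = c → al x = 1 := by
    intro x hx
    have h3 := h2 (x + ⟨r, Or.inr hr⟩) (q_eq_iff.1 (hx.trans hr.symm))
    rw [map_add, h1] at h3
    rcases zm (al x) with h | h
    · rw [h] at h3; exact absurd h3 (by decide)
    · exact h
  have hal : ∀ g : V, ∃ x : MM D c u, al x = 1 ∧ (x : V) ∈ MM D c g := by
    intro g
    by_cases sgg : Sg D c g
    · obtain ⟨y, h3, h4⟩ := su.common sgg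
      exact ⟨⟨y, Or.inr h3⟩, al1 _ h3, Or.inr h4⟩
    · obtain ⟨y, h3, h4⟩ := su.common (hu g sgg)
      refine ⟨⟨y, Or.inr h3⟩, al1 _ h3, Or.inl ?_⟩
      have h6 := q_eq'_iff.1 (h3.trans h4.symm)
      exact h6.of_eq (by rw [← add_assoc, ZModModule.add_self, zero_add]) rfl
  obtain ⟨x, h3, h4⟩ := Y.hub hX al hal
  refine ⟨x, ?_, fun v => mem_MM'.1 (h4 v)⟩
  rcases x.2 with h | h
  · have := h2 x h
    rw [h3] at this
    exact absurd this one_ne_zero
  · exact h

/-- **THEOREM N**, refutation -/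
theorem false_of_N [Finite V] (he : D.e = 0) {c : Q} (cne : c ≠ D.z)
    (k4 : ∀ z, z ≠ 0 → ETCD2.K4At D z) {u : V} (su : Sg D c u)
    (hsp : ∀ v, v ∈ Submodule.span (ZMod 2) {s | Sg D c s})
    (hu : ∀ v, ¬ Sg D c v → Sg D c (u + v)) : False := by
  obtain ⟨x, hx, h⟩ := exists_hub_N he cne su hsp hu
  refine ETPN.false_of_pair cne (Sg.right hx) (k4 x ?_) fun s _ => h s
  rintro rfl
  exact cne (hx.symm.trans (C.zero u))

/-- **THEOREM N**, the form with `V_u ∩ N_c` in the stabiliser of the slots -/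
theorem false_of_N' [Finite V] (he : D.e = 0) {c : Q} (cne : c ≠ D.z)
    (k4 : ∀ z, z ≠ 0 → ETCD2.K4At D z) {u : V} (su : Sg D c u)
    (hsp : ∀ v, v ∈ Submodule.span (ZMod 2) {s | Sg D c s})
    (hu : ∀ d, C D u d → ¬ Sg D c d → ∀ s, Sg D c s → Sg D c (s + d)) : False := by
  refine false_of_N he cne k4 su hsp fun v nv => ?_
  obtain ⟨s, hs, hgs⟩ := cm_span he ⟨u, su⟩ (hsp v)
  exact add_slot su hu hs hgs nv

/-! ### (C1), helper30 -/

section
variable {y n : V}

/-- (a) -/
theorem c1a (he : D.e = 0)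
    (hq : ∀ v w, D.q y v = D.q n w → D.q y v = D.z ∨ D.q y v = D.q y n) {w : V}
    (hw : C D (y + n) w) : (C D y w ∧ C D n w) ∨ (C D y (w + (y + n)) ∧ C D n (w + (y + n))) := by
  have h1 : D.q y w = D.q n w := q_eq'_iff.2 hw
  have e1 : C D (y + n) (w + (y + n)) := hw.add (C.self he _)
  have h2 : D.q y (w + (y + n)) = D.q n (w + (y + n)) := q_eq'_iff.2 e1
  rcases hq w w h1 with h | h
  · exact Or.inl ⟨h, h1.symm.trans h⟩
  · right
    have h3 : C D y (w + (y + n)) := by
      have h4 : C D y (w + n) := q_eq_iff.1 h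
      have h5 := h4.add (C.self he y)
      exact h5.of_eq rfl (by abel)
    exact ⟨h3, h2.symm.trans h3⟩

/-- (a) for `N_u` -/
theorem c1a' (he : D.e = 0)
    (hq : ∀ v w, D.q y v = D.q n w → D.q y v = D.z ∨ D.q y v = D.q y n) {z : V}
    (hz : D.q (y + n) z = D.q y n) : (C D y z ∧ D.q n z = D.q y n) ∨
      (D.q y z = D.q y n ∧ C D n z) := by
  have h0 : D.q (y + n) y = D.q y n := by
    have : D.q (y + n) y = D.q n y := q_eq'_iff.2 ((C.self he y).of_eq (by
      rw [add_assoc, ZModModule.add_self, add_zero]) rfl)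
    rw [this, D.symm]
  have h1 : C D (y + n) (z + y) := q_eq_iff.1 (hz.trans h0.symm)
  rcases c1a he hq h1 with ⟨h2, h3⟩ | ⟨h2, h3⟩
  · left
    refine ⟨(h2.add (C.self he y)).of_eq rfl (by
      rw [add_assoc, ZModModule.add_self, add_zero]), ?_⟩
    rw [D.symm y n]
    exact q_eq_iff.2 h3
  · right
    have e1 : z + y + (y + n) = z + n := eo (by
      abel_nf <;> simp only [ch2, ch3, ch4, add_zero, zero_add])
    rw [e1] at h2 h3
    exact ⟨q_eq_iff.2 h2, (h3.add (C.self he n)).of_eq rfl (by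
      rw [add_assoc, ZModModule.add_self, add_zero])⟩

/-- (b) -/
theorem c1b (he : D.e = 0)
    (hq : ∀ v w, D.q y v = D.q n w → D.q y v = D.z ∨ D.q y v = D.q y n) {g : V}
    (h1 : ¬ Sg D (D.q y n) g) (h2 : ¬ Sg D (D.q y n) (y + n + g)) :
    ¬ Sg D (D.q y n) (g + y) ∧ ¬ Sg D (D.q y n) (g + n) := by
  have su : Sg D (D.q y n) (y + n) := by
    refine ⟨n, ?_⟩
    exact q_eq'_iff.2 ((C.self he n).of_eq (by
      rw [add_comm y n, add_assoc, ZModModule.add_self, add_zero]) rfl)
  have key : ∀ z, D.q (y + n) z = D.q y n → ¬ D.q g z = D.q y n ∧ ¬ C D g z := by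
    intro z hz
    refine ⟨fun h => h1 ⟨z, h⟩, fun h => h2 ⟨z, ?_⟩⟩
    rw [← hz, q_eq'_iff]
    exact h.of_eq (eo (by abel_nf <;> simp only [ch2, ch3, ch4, add_zero, zero_add])) rfl
  constructor
  · intro hs
    obtain ⟨z, k1, k2⟩ := su.common hs
    obtain ⟨k3, k4⟩ := key z k1
    rcases c1a' he hq k1 with ⟨h3, h4⟩ | ⟨h3, h4⟩
    · apply k3
      rw [← k2, q_eq'_iff]
      exact h3.of_eq (by rw [← add_assoc, ZModModule.add_self, zero_add]) rfl
    · apply k4
      have h5 := q_eq'_iff.1 (k2.trans h3.symm)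
      exact h5.of_eq (by rw [add_assoc, ZModModule.add_self, add_zero]) rfl
  · intro hs
    obtain ⟨z, k1, k2⟩ := su.common hs
    obtain ⟨k3, k4⟩ := key z k1
    rcases c1a' he hq k1 with ⟨h3, h4⟩ | ⟨h3, h4⟩
    · apply k4
      have h5 := q_eq'_iff.1 (k2.trans h4.symm)
      exact h5.of_eq (by rw [add_assoc, ZModModule.add_self, add_zero]) rfl
    · apply k3
      rw [← k2, q_eq'_iff]
      exact h4.of_eq (by rw [← add_assoc, ZModModule.add_self, zero_add]) rfl

/-- (d) -/
theorem c1d (he : D.e = 0)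
    (hq : ∀ v w, D.q y v = D.q n w → D.q y v = D.z ∨ D.q y v = D.q y n) {g w : V}
    (h1 : ¬ Sg D (D.q y n) g) (h2 : ¬ Sg D (D.q y n) (y + n + g))
    (h3 : D.q y g = D.q (y + n) w) : False := by
  obtain ⟨b1, b2⟩ := c1b he hq h1 h2
  obtain ⟨z, k1, k2⟩ := D.link g y (y + n) w (by rw [D.symm]; exact h3)
  have e0 : D.q y g = D.q g z := by rw [D.symm, k1]
  have e1 : D.q g z = D.q (y + n) z := by rw [← e0, h3, k2]
  -- `n z = y (g + z)`
  have e2 : D.q n z = D.q y (g + z) := by
    obtain ⟨v, l1, l2⟩ := D.link y g (y + n) z (e0.trans e1)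
    have m1 : C D y (g + v) := q_eq_iff.1 l1
    have m2 : C D (y + n) (z + v) := q_eq_iff.1 l2
    have m3 : C D n v := by
      have : D.q y v = D.q (y + n) v := by rw [← l1, e0, e1, l2]
      exact (q_eq'_iff.1 this).of_eq (by rw [← add_assoc, ZModModule.add_self, zero_add]) rfl
    have m4 : D.q y (z + v) = D.q n (z + v) := q_eq'_iff.2 m2
    have m5 : D.q n (z + v) = D.q n z := by
      rw [q_eq_iff]
      exact m3.of_eq rfl (by rw [add_comm z v, add_assoc, ZModModule.add_self, add_zero])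
    have m6 : D.q y (g + z) = D.q y (z + v) := by
      rw [q_eq_iff]
      exact m1.of_eq rfl (eo (by abel_nf <;> simp only [ch2, ch3, ch4, add_zero, zero_add]))
    rw [m6, m4, m5]
  -- `(g + y) z = n z`
  have e3 : D.q (g + y) z = D.q n z := by
    rw [q_eq'_iff]
    exact (q_eq'_iff.1 e1).of_eq (by abel) rfl
  rcases hq (g + z) z e2.symm with h | h
  · have f1 : C D n z := by rw [← e2] at h; exact h
    have f2 : D.q (g + n) z = D.q g z := by
      rw [q_eq'_iff]
      exact f1.of_eq (by rw [add_comm g n, add_assoc, ZModModule.add_self, add_zero]) rfl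
    -- `(g + n) (z + y) = y (g + g + n) = c`
    have f3 : D.q (g + n) z = D.q y g := by rw [f2, e0]
    have f4 : D.q (g + n) (z + y) = D.q y (g + (g + n)) :=
      ETC.add_common f3 (D.symm (g + n) y)
    rw [← add_assoc, ZModModule.add_self, zero_add] at f4
    exact b2 ⟨_, f4⟩
  · exact b1 ⟨z, by rw [e3, e2, h]⟩

end

/-- **(C1')** (helper30): if `Q_y ∩ Q_n = {0, c}`, `c = q (y, n) ≠ 0`, the slots of `c` span `V`
and for all `g` with `g`, `y + n + g` non-slots `q (y, g) ∈ Q_{y + n}`, a contradiction -/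
theorem false_of_C1' [Finite V] (he : D.e = 0) {y n : V} (cne : D.q y n ≠ D.z)
    (k4 : ∀ z, z ≠ 0 → ETCD2.K4At D z)
    (hq : ∀ v w, D.q y v = D.q n w → D.q y v = D.z ∨ D.q y v = D.q y n)
    (hsp : ∀ v, v ∈ Submodule.span (ZMod 2) {s | Sg D (D.q y n) s})
    (hg : ∀ g, ¬ Sg D (D.q y n) g → ¬ Sg D (D.q y n) (y + n + g) →
      ∃ w, D.q y g = D.q (y + n) w) : False := by
  have su : Sg D (D.q y n) (y + n) := by
    refine ⟨n, ?_⟩
    exact q_eq'_iff.2 ((C.self he n).of_eq (by
      rw [add_comm y n, add_assoc, ZModModule.add_self, add_zero]) rfl)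
  refine false_of_N he cne k4 su hsp fun g h1 => ?_
  by_contra h2
  obtain ⟨w, hw⟩ := hg g h1 h2
  exact c1d he hq h1 h2 hw

/-- **(C1)** (helper30): `q (y, n) = c ≠ 0`, `Q_y ∩ Q_n = {0, c}` and `V_y + V_n = V` are
impossible together -/
theorem false_of_C1 [Finite V] (he : D.e = 0) {y n : V} (cne : D.q y n ≠ D.z)
    (k4 : ∀ z, z ≠ 0 → ETCD2.K4At D z)
    (hq : ∀ v w, D.q y v = D.q n w → D.q y v = D.z ∨ D.q y v = D.q y n)
    (hV : ∀ v, ∃ w, C D y w ∧ C D n (v + w)) : False := by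
  have sy : Sg D (D.q y n) y := ⟨n, rfl⟩
  have sn : Sg D (D.q y n) n := Sg.right rfl
  have span_ann : ∀ s, Sg D (D.q y n) s → ∀ v, C D s v →
      v ∈ Submodule.span (ZMod 2) {s | Sg D (D.q y n) s} := by
    rintro s ⟨r, hr⟩ v hv
    have h1 := Submodule.subset_span (R := ZMod 2) (s := {s | Sg D (D.q y n) s}) (Sg.right hr)
    have h2 := Submodule.subset_span (R := ZMod 2) (s := {s | Sg D (D.q y n) s})
      (Sg.right (qa hr hv))
    have h3 := Submodule.add_mem _ h1 h2
    rwa [← add_assoc, ZModModule.add_self, zero_add] at h3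
  refine false_of_C1' he cne k4 hq (fun v => ?_) (fun g _ _ => ?_)
  · obtain ⟨w, h1, h2⟩ := hV v
    have h3 := Submodule.add_mem _ (span_ann n sn _ h2) (span_ann y sy _ h1)
    rwa [add_assoc, ZModModule.add_self, add_zero] at h3
  · obtain ⟨w, h1, h2⟩ := hV g
    refine ⟨g + w, ?_⟩
    have e1 : D.q y g = D.q y (g + w) := by
      rw [q_eq_iff]
      exact h1.of_eq rfl (by rw [← add_assoc, ZModModule.add_self, zero_add])
    rw [e1, q_eq'_iff]
    exact h2.of_eq (by rw [← add_assoc, ZModModule.add_self, zero_add]) rfl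

end Pool.Agent.ETPR
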