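import Pool.Agent.ETPT.FL

/-!
**LAW Y** (helper30): for slots `u`, `s` of `c`, the sum of `|V_u ∩ V_d| - |N_u ∩ V_d|` over the
non-slots `d` in `V_s` is symmetric in `u` and `s`.  Only `c`-linkage is used.
-/

set_option autoImplicit false
set_option linter.unusedSectionVars false

namespace Pool.Agent.ETPR

open Pool.Agent.Helper58.PLine (QData)
open Pool.Agent.ETCP
open Pool.Agent.ETPF
open Pool.Agent.ETPG
open Pool.Agent.ETPT
open ETC (ind ind_true ind_false ind_and ind_congr ind_nonneg ind_le sum_ind_shift zm)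

variable {V Q : Type} [AddCommGroup V] [Module (ZMod 2) V] {D : QData V Q}

section
variable (D) [Fintype V] [DecidableEq V] (c : Q)

/-- adjacency of `c` -/
noncomputable def mC : Matrix V V ℤ := Matrix.of fun x y => ind (D.q x y = c)
/-- commuting -/
noncomputable def mZ : Matrix V V ℤ := Matrix.of fun x y => ind (C D x y)
/-- slots -/
noncomputable def mE : Matrix V V ℤ := Matrix.diagonal fun x => ind (Sg D c x)
/-- non-slots -/
noncomputable def mF : Matrix V V ℤ := Matrix.diagonal fun x => ind (¬ Sg D c x)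

theorem mC_t : (mC D c).transpose = mC D c := by
  ext x y
  simp only [mC, Matrix.transpose_apply, Matrix.of_apply]
  exact ind_congr (by rw [D.symm])

theorem mZ_t : (mZ D).transpose = mZ D := by
  ext x y
  simp only [mZ, Matrix.transpose_apply, Matrix.of_apply]
  exact ind_congr ⟨C.symm, C.symm⟩

theorem mE_t : (mE D c).transpose = mE D c := Matrix.diagonal_transpose _
theorem mF_t : (mF D c).transpose = mF D c := Matrix.diagonal_transpose _

theorem mE_mul : mE D c * mE D c = mE D c := by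
  unfold mE
  rw [Matrix.diagonal_mul_diagonal]
  congr 1
  ext x
  by_cases h : Sg D c x
  · rw [ind_true h]; rfl
  · rw [ind_false h]; rfl

theorem mE_add : mE D c + mF D c = 1 := by
  unfold mE mF
  rw [Matrix.diagonal_add, ← Matrix.diagonal_one]
  congr 1
  ext x
  by_cases h : Sg D c x
  · rw [ind_true h, ind_false (not_not.2 h)]; rfl
  · rw [ind_false h, ind_true h]; rfl

theorem mC_mul_E : mC D c * mE D c = mC D c := by
  ext x y
  unfold mE
  rw [Matrix.mul_diagonal]
  simp only [mC, Matrix.of_apply]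
  by_cases h : D.q x y = c
  · rw [ind_true h, ind_true (Sg.right h), mul_one]
  · rw [ind_false h, zero_mul]

/-- `C ^ 2 = M` -/
theorem mC_sq : mC D c * mC D c = mE D c * mZ D * mZ D * mE D c := by
  ext x y
  rw [Matrix.mul_assoc (mE D c), mE, Matrix.mul_diagonal, Matrix.diagonal_mul, Matrix.mul_apply,
    Matrix.mul_apply]
  simp only [mC, mZ, Matrix.of_apply]
  simp only [← ind_and]
  by_cases hx : Sg D c x
  · by_cases hy : Sg D c y
    · rw [ind_true hx, ind_true hy, one_mul, mul_one]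
      obtain ⟨r, h1, h2⟩ := hx.common hy
      refine sum_ind_shift _ _ r fun v => ?_
      rw [q_shift h1, q_shift' (by rw [D.symm]; exact h2)]
    · rw [ind_false hy, mul_zero]
      exact Finset.sum_eq_zero fun v _ => ind_false fun h => hy (Sg.right h.2)
  · rw [ind_false hx, zero_mul, zero_mul]
    exact Finset.sum_eq_zero fun v _ => ind_false fun h => hx (Sg.left h.1)

/-- `C Z E` is symmetric -/
theorem mCZE_t : (mC D c * mZ D * mE D c).transpose = mC D c * mZ D * mE D c := by
  ext x y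
  rw [Matrix.transpose_apply, mE, Matrix.mul_diagonal, Matrix.mul_diagonal, Matrix.mul_apply,
    Matrix.mul_apply]
  simp only [mC, mZ, Matrix.of_apply]
  simp only [← ind_and]
  by_cases hx : Sg D c x
  · by_cases hy : Sg D c y
    · rw [ind_true hx, ind_true hy, mul_one, mul_one]
      obtain ⟨r, h1, h2⟩ := hx.common hy
      refine sum_ind_shift _ _ r fun v => ?_
      rw [q_shift h2]
      have e : C D (v + r) x ↔ D.q x v = c :=
        ⟨fun h => (q_eq h.symm).trans h1, fun h => (q_eq_iff.1 (h.trans h1.symm)).symm⟩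
      rw [e]
      exact ⟨fun ⟨a, b⟩ => ⟨b, a.symm⟩, fun ⟨a, b⟩ => ⟨b.symm, a⟩⟩
    · rw [ind_false hy, mul_zero]
      rw [Finset.sum_eq_zero fun v _ => ind_false fun h => hy (Sg.left h.1), zero_mul]
  · rw [ind_false hx, mul_zero]
    rw [Finset.sum_eq_zero fun v _ => ind_false fun h => hx (Sg.left h.1), zero_mul]

end

/-- **LAW Y**, matrix form -/
theorem lawY_matrix [Fintype V] [DecidableEq V] (c : Q) :
    ((mE D c * mZ D - mC D c) * mZ D * mF D c * (mZ D * mE D c)).transpose =
      (mE D c * mZ D - mC D c) * mZ D * mF D c * (mZ D * mE D c) := by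
  obtain ⟨Cm, hC⟩ : ∃ Cm, Cm = mC D c := ⟨_, rfl⟩
  obtain ⟨Z, hZ⟩ : ∃ Z, Z = mZ D := ⟨_, rfl⟩
  obtain ⟨E, hE⟩ : ∃ E, E = mE D c := ⟨_, rfl⟩
  obtain ⟨F, hF⟩ : ∃ F, F = mF D c := ⟨_, rfl⟩
  have c1 := mC_t D c
  have c2 := mZ_t D
  have c3 := mE_t D c
  have c4 := mF_t D c
  have c5 := mE_mul D c
  have c6 := mE_add D c
  have c7 := mC_mul_E D c
  have c8 := mC_sq D c
  have c9 := mCZE_t D c
  rw [← hC] at c1 c7 c8 c9 ⊢
  rw [← hZ] at c2 c8 c9 ⊢
  rw [← hE] at c3 c5 c6 c7 c8 c9 ⊢
  rw [← hF] at c4 c6 ⊢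
  have c7' : E * Cm = Cm := by
    have := congrArg Matrix.transpose c7
    rwa [Matrix.transpose_mul, c1, c3] at this
  have hF1 : F = 1 - E := by rw [← c6]; noncomm_ring
  -- `C` and `P = E Z E` commute
  have c10 : Cm * Z * E = E * Z * Cm := by
    have h := c9
    rw [Matrix.transpose_mul, Matrix.transpose_mul, c1, c2, c3] at h
    rw [← h]
    noncomm_ring
  have c11 : Cm * (E * Z * E) = E * Z * E * Cm := by
    have e1 : Cm * (E * Z * E) = Cm * E * Z * E := by noncomm_ring
    have e2 : E * Z * E * Cm = E * Z * (E * Cm) := by noncomm_ring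
    rw [e1, c7, c10, e2, c7']
  -- `M_N = E Z F Z E = C ^ 2 - P ^ 2`
  have c12 : E * Z * F * Z * E = Cm * Cm - (E * Z * E) * (E * Z * E) := by
    have e1 : (E * Z * E) * (E * Z * E) = E * Z * (E * E) * Z * E := by noncomm_ring
    rw [c8, e1, c5, hF1]
    noncomm_ring
  have c13 : Cm * (E * Z * F * Z * E) = (E * Z * F * Z * E) * Cm := by
    rw [c12, mul_sub, sub_mul, ← mul_assoc, ← mul_assoc Cm, c11, mul_assoc (E * Z * E) Cm, c11]
    noncomm_ring
  have c14 : (E * Z * E) * (E * Z * F * Z * E) = (E * Z * F * Z * E) * (E * Z * E) := by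
    rw [c12, mul_sub, sub_mul, ← mul_assoc, ← c11, mul_assoc Cm, ← c11]
    noncomm_ring
  have t1 : (E * Z * F * Z * E).transpose = E * Z * F * Z * E := by
    simp only [Matrix.transpose_mul, c2, c3, c4]
    noncomm_ring
  have t2 : (E * Z * E).transpose = E * Z * E := by
    simp only [Matrix.transpose_mul, c2, c3]
    noncomm_ring
  have t3 : (E * Z * F * Z * F * Z * E).transpose = E * Z * F * Z * F * Z * E := by
    simp only [Matrix.transpose_mul, c2, c3, c4]
    noncomm_ring
  have key : (E * Z - Cm) * Z * F * (Z * E) =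
      (E * Z * E) * (E * Z * F * Z * E) + E * Z * F * Z * F * Z * E -
        Cm * (E * Z * F * Z * E) := by
    have e1 : (E * Z * E) * (E * Z * F * Z * E) = E * Z * (E * E) * Z * F * Z * E := by
      noncomm_ring
    have e2 : Cm * (E * Z * F * Z * E) = (Cm * E) * Z * F * Z * E := by noncomm_ring
    have e3 : E * Z * E * Z * F * Z * E + E * Z * F * Z * F * Z * E =
        E * Z * (E + F) * Z * F * Z * E := by noncomm_ring
    rw [e1, e2, c5, c7, e3, c6]
    noncomm_ring
  rw [key, Matrix.transpose_sub, Matrix.transpose_add, t3, Matrix.transpose_mul, t1, t2,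
    Matrix.transpose_mul, t1, c1, c14, c13]

/-- the twin identity, for the slots `d` -/
theorem lawY2_matrix [Fintype V] [DecidableEq V] (c : Q) :
    ((mE D c * mZ D - mC D c) * mZ D * mE D c * (mZ D * mE D c)).transpose =
      (mE D c * mZ D - mC D c) * mZ D * mE D c * (mZ D * mE D c) := by
  obtain ⟨Cm, hC⟩ : ∃ Cm, Cm = mC D c := ⟨_, rfl⟩
  obtain ⟨Z, hZ⟩ : ∃ Z, Z = mZ D := ⟨_, rfl⟩
  obtain ⟨E, hE⟩ : ∃ E, E = mE D c := ⟨_, rfl⟩
  have c1 := mC_t D c
  have c2 := mZ_t D
  have c3 := mE_t D c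
  have c5 := mE_mul D c
  have c7 := mC_mul_E D c
  have c8 := mC_sq D c
  have c9 := mCZE_t D c
  rw [← hC] at c1 c7 c8 c9 ⊢
  rw [← hZ] at c2 c8 c9 ⊢
  rw [← hE] at c3 c5 c7 c8 c9 ⊢
  have c7' : E * Cm = Cm := by
    have := congrArg Matrix.transpose c7
    rwa [Matrix.transpose_mul, c1, c3] at this
  have c10 : Cm * Z * E = E * Z * Cm := by
    have h := c9
    rw [Matrix.transpose_mul, Matrix.transpose_mul, c1, c2, c3] at h
    rw [← h]
    noncomm_ring
  have c11 : Cm * (E * Z * E) = E * Z * E * Cm := by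
    have e1 : Cm * (E * Z * E) = Cm * E * Z * E := by noncomm_ring
    have e2 : E * Z * E * Cm = E * Z * (E * Cm) := by noncomm_ring
    rw [e1, c7, c10, e2, c7']
  have t2 : (E * Z * E).transpose = E * Z * E := by
    simp only [Matrix.transpose_mul, c2, c3]
    noncomm_ring
  have key : (E * Z - Cm) * Z * E * (Z * E) =
      Cm * Cm * (E * Z * E) - Cm * (E * Z * E) * (E * Z * E) := by
    have e1 : E * Z * Z * E * (E * Z * E) = E * Z * Z * (E * E) * Z * E := by noncomm_ring
    have e2 : Cm * (E * Z * E) * (E * Z * E) = (Cm * E) * Z * (E * E) * Z * E := by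
      noncomm_ring
    rw [c8, e1, e2, c5, c7]
    noncomm_ring
  rw [key]
  obtain ⟨P, hP⟩ : ∃ P, P = E * Z * E := ⟨_, rfl⟩
  rw [← hP] at c11 t2 ⊢
  rw [Matrix.transpose_sub, Matrix.transpose_mul, Matrix.transpose_mul, Matrix.transpose_mul,
    Matrix.transpose_mul, t2, c1]
  have f1 : P * (Cm * Cm) = Cm * Cm * P := by
    rw [← mul_assoc, ← c11, mul_assoc, ← c11, ← mul_assoc]
  have f2 : P * (P * Cm) = Cm * P * P := by
    rw [← c11, ← mul_assoc, ← c11]
  rw [f1, f2]

/-- `|V_u ∩ V_d| - |N_u ∩ V_d|` -/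
noncomputable def wY (D : QData V Q) [Fintype V] (c : Q) (u d : V) : ℤ :=
  ∑ y, ind (C D u y ∧ C D y d) - ∑ y, ind (D.q u y = c ∧ C D y d)

/-- **LAW Y** -/
theorem lawY [Fintype V] {c : Q} {u s : V} (hu : Sg D c u) (hs : Sg D c s) :
    ∑ d, wY D c u d * ind (¬ Sg D c d ∧ C D d s) =
      ∑ d, wY D c s d * ind (¬ Sg D c d ∧ C D d u) := by
  classical
  have h := congrFun (congrFun (lawY_matrix (D := D) c) u) s
  rw [Matrix.transpose_apply] at h
  have key : ∀ u s, Sg D c u → Sg D c s →
      ((mE D c * mZ D - mC D c) * mZ D * mF D c * (mZ D * mE D c)) u s =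
        ∑ d, wY D c u d * ind (¬ Sg D c d ∧ C D d s) := by
    intro u s hu hs
    rw [Matrix.mul_apply]
    refine Finset.sum_congr rfl fun d _ => ?_
    have e1 : (mE D c * mZ D * mZ D) u d = ∑ y, ind (C D u y ∧ C D y d) := by
      rw [Matrix.mul_assoc, mE, Matrix.diagonal_mul, ind_true hu, one_mul, Matrix.mul_apply]
      simp only [mZ, Matrix.of_apply]
      simp only [← ind_and]
    have e2 : (mC D c * mZ D) u d = ∑ y, ind (D.q u y = c ∧ C D y d) := by
      rw [Matrix.mul_apply]
      simp only [mC, mZ, Matrix.of_apply]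
      simp only [← ind_and]
    have e3 : (mZ D * mE D c) d s = ind (C D d s) := by
      rw [mE, Matrix.mul_diagonal, ind_true hs, mul_one]
      rfl
    rw [e3, mF, Matrix.mul_diagonal, sub_mul, Matrix.sub_apply, e1, e2]
    unfold wY
    rw [mul_assoc, ← ind_and]
  rw [key u s hu hs, key s u hs hu] at h
  exact h.symm

/-- the twin of LAW Y, for the slots `d` -/
theorem lawY2 [Fintype V] {c : Q} {u s : V} (hu : Sg D c u) (hs : Sg D c s) :
    ∑ d, wY D c u d * ind (Sg D c d ∧ C D d s) =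
      ∑ d, wY D c s d * ind (Sg D c d ∧ C D d u) := by
  classical
  have h := congrFun (congrFun (lawY2_matrix (D := D) c) u) s
  rw [Matrix.transpose_apply] at h
  have key : ∀ u s, Sg D c u → Sg D c s →
      ((mE D c * mZ D - mC D c) * mZ D * mE D c * (mZ D * mE D c)) u s =
        ∑ d, wY D c u d * ind (Sg D c d ∧ C D d s) := by
    intro u s hu hs
    rw [Matrix.mul_apply]
    refine Finset.sum_congr rfl fun d _ => ?_
    have e1 : (mE D c * mZ D * mZ D) u d = ∑ y, ind (C D u y ∧ C D y d) := by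
      rw [Matrix.mul_assoc, mE, Matrix.diagonal_mul, ind_true hu, one_mul, Matrix.mul_apply]
      simp only [mZ, Matrix.of_apply]
      simp only [← ind_and]
    have e2 : (mC D c * mZ D) u d = ∑ y, ind (D.q u y = c ∧ C D y d) := by
      rw [Matrix.mul_apply]
      simp only [mC, mZ, Matrix.of_apply]
      simp only [← ind_and]
    have e3 : (mZ D * mE D c) d s = ind (C D d s) := by
      rw [mE, Matrix.mul_diagonal, ind_true hs, mul_one]
      rfl
    have e4 : ((mE D c * mZ D - mC D c) * mZ D * mE D c) u d =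
        ((mE D c * mZ D * mZ D) u d - (mC D c * mZ D) u d) * ind (Sg D c d) := by
      rw [sub_mul]
      conv_lhs => rw [mE]
      rw [Matrix.mul_diagonal, Matrix.sub_apply]
      rfl
    rw [e3, e4, e1, e2]
    unfold wY
    rw [mul_assoc, ← ind_and]
  rw [key u s hu hs, key s u hs hu] at h
  exact h.symm

/-- `wY u d = 0` if `u + d` is a slot -/
theorem wY_zero [Fintype V] {c : Q} {u d : V} (hu : Sg D c u) (h : Sg D c (u + d)) :
    wY D c u d = 0 := by
  obtain ⟨r, h1, h2⟩ := hu.common h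
  have h3 : C D r d := by
    have h4 : D.q r u = D.q r (u + d) := by rw [D.symm, h1, D.symm, h2]
    have h5 := q_eq_iff.1 h4
    exact h5.of_eq rfl (by rw [← add_assoc, ZModModule.add_self, zero_add])
  unfold wY
  rw [sub_eq_zero]
  symm
  refine sum_ind_shift _ _ r fun y => ?_
  rw [q_shift h1]
  refine and_congr_right fun _ => ⟨fun h4 => ?_, fun h4 => ?_⟩
  · exact (h4.symm.add h3.symm).symm.of_eq
      (by rw [add_assoc, ZModModule.add_self, add_zero]) rfl
  · exact (h4.symm.add h3.symm).symm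

/-- otherwise `wY u d ≥ 1` -/
theorem wY_pos [Fintype V] {c : Q} {u d : V} (h : ¬ Sg D c (u + d)) :
    1 ≤ wY D c u d := by
  have h1 : ∑ y, ind (D.q u y = c ∧ C D y d) = 0 := by
    refine Finset.sum_eq_zero fun y _ => ind_false fun ⟨h2, h3⟩ => h ⟨y, ?_⟩
    have h4 : D.q y (u + d) = D.q y u := by
      rw [q_eq_iff]
      exact h3.of_eq rfl (by rw [add_comm u d, add_assoc, ZModModule.add_self, add_zero])
    rw [D.symm, h4, D.symm, h2]
  unfold wY
  rw [h1, sub_zero]
  have h2 : ind (C D u 0 ∧ C D 0 d) ≤ ∑ y, ind (C D u y ∧ C D y d) :=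
    Finset.single_le_sum (f := fun y => ind (C D u y ∧ C D y d)) (fun y _ => ind_nonneg _)
      (Finset.mem_univ 0)
  rwa [ind_true ⟨C.zero _, (C.zero _).symm⟩] at h2

theorem wY_nonneg [Fintype V] {c : Q} {u d : V} (hu : Sg D c u) : 0 ≤ wY D c u d := by
  by_cases h : Sg D c (u + d)
  · rw [wY_zero hu h]
  · exact le_trans zero_le_one (wY_pos h)

/-- **COR 1 of LAW Y**: if all non-slots commuting with the slot `u` stabilise the slots, then
`u + d` is a slot for every non-slot `d` commuting with a slot -/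
theorem add_slot [Finite V] {c : Q} {u : V} (hu : Sg D c u)
    (h : ∀ d, C D u d → ¬ Sg D c d → ∀ s, Sg D c s → Sg D c (s + d)) {s d : V} (hs : Sg D c s)
    (hd : C D s d) (nd : ¬ Sg D c d) : Sg D c (u + d) := by
  have hF := Fintype.ofFinite V
  by_contra hcon
  have h1 := lawY hu hs
  have h2 : ∑ d, wY D c s d * ind (¬ Sg D c d ∧ C D d u) = 0 := by
    refine Finset.sum_eq_zero fun e _ => ?_
    by_cases he : ¬ Sg D c e ∧ C D e u
    · rw [wY_zero hs (h e he.2.symm he.1 s hs), zero_mul]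
    · rw [ind_false he, mul_zero]
  rw [h2, Finset.sum_eq_zero_iff_of_nonneg (fun e _ =>
    mul_nonneg (wY_nonneg hu) (ind_nonneg _))] at h1
  have h3 := h1 d (Finset.mem_univ _)
  rw [ind_true ⟨nd, hd.symm⟩, mul_one] at h3
  have := wY_pos hcon
  omega

/-- **converse of COR 1**: if `u + d` is a slot for all non-slots `d` commuting with a slot, then
the non-slots commuting with `u` stabilise the slots -/
theorem stab_of_add [Finite V] {c : Q} {u : V} (hu : Sg D c u)
    (h : ∀ s d, Sg D c s → C D s d → ¬ Sg D c d → Sg D c (u + d)) {s d : V} (hs : Sg D c s)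
    (hd : C D u d) (nd : ¬ Sg D c d) : Sg D c (s + d) := by
  have hF := Fintype.ofFinite V
  by_contra hcon
  have h1 := lawY hs hu
  have h2 : ∑ d, wY D c u d * ind (¬ Sg D c d ∧ C D d s) = 0 := by
    refine Finset.sum_eq_zero fun e _ => ?_
    by_cases he : ¬ Sg D c e ∧ C D e s
    · rw [wY_zero hu (h s e hs he.2.symm he.1), zero_mul]
    · rw [ind_false he, mul_zero]
  rw [h2, Finset.sum_eq_zero_iff_of_nonneg (fun e _ =>
    mul_nonneg (wY_nonneg hs) (ind_nonneg _))] at h1
  have h3 := h1 d (Finset.mem_univ _)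
  rw [ind_true ⟨nd, hd.symm⟩, mul_one] at h3
  have := wY_pos hcon
  omega

/-- **(R)**: `w + V_m < S` implies `m + V_w < S` for slots `w`, `m` -/
theorem recip [Finite V] {c : Q} {w m : V} (hw : Sg D c w) (hm : Sg D c m)
    (h : ∀ d, C D m d → Sg D c (w + d)) {d : V} (hd : C D w d) : Sg D c (m + d) := by
  have hF := Fintype.ofFinite V
  by_contra hcon
  have hp := wY_pos hcon
  by_cases sd : Sg D c d
  · have h1 := lawY2 hm hw
    have h2 : ∑ d, wY D c w d * ind (Sg D c d ∧ C D d m) = 0 := by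
      refine Finset.sum_eq_zero fun e _ => ?_
      by_cases he : Sg D c e ∧ C D e m
      · rw [wY_zero hw (h e he.2.symm), zero_mul]
      · rw [ind_false he, mul_zero]
    rw [h2, Finset.sum_eq_zero_iff_of_nonneg (fun e _ =>
      mul_nonneg (wY_nonneg hm) (ind_nonneg _))] at h1
    have h3 := h1 d (Finset.mem_univ _)
    rw [ind_true ⟨sd, hd.symm⟩, mul_one] at h3
    omega
  · have h1 := lawY hm hw
    have h2 : ∑ d, wY D c w d * ind (¬ Sg D c d ∧ C D d m) = 0 := by
      refine Finset.sum_eq_zero fun e _ => ?_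
      by_cases he : ¬ Sg D c e ∧ C D e m
      · rw [wY_zero hw (h e he.2.symm), zero_mul]
      · rw [ind_false he, mul_zero]
    rw [h2, Finset.sum_eq_zero_iff_of_nonneg (fun e _ =>
      mul_nonneg (wY_nonneg hm) (ind_nonneg _))] at h1
    have h3 := h1 d (Finset.mem_univ _)
    rw [ind_true ⟨sd, hd.symm⟩, mul_one] at h3
    omega

end Pool.Agent.ETPR
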