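import Pool.Agent.ETPR.TI

/-!
**THEOREM R2** (helper66 on top of helper33's Theorem I, helper30's C1 and helper35's Theorem N):
in a finite fully linked structure with `-1 = 1` and `K4At` at every `z ≠ 0` there is no element
`y` whose symbols are exactly `0, a, b, c`.
-/

set_option autoImplicit false
set_option linter.unusedSectionVars false
set_option linter.unusedSimpArgs false
set_option linter.unnecessarySeqFocus false

namespace Pool.Agent.ETPR

open Pool.Agent.Helper58.PLine (QData)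
open Pool.Agent.ETCP
open Pool.Agent.ETPF
open Pool.Agent.ETPT
open ETC (ph WR ph_add ph_zero ph_self ph_e prod_of_q_eq q_eq_zero_iff fm fm_nil)

variable {V Q : Type} [AddCommGroup V] [Module (ZMod 2) V] {D : QData V Q}

/-- the setting -/
structure R2S (D : QData V Q) (y : V) (a b c : Q) : Prop where
  he : D.e = 0
  k4 : ∀ z, z ≠ 0 → ETCD2.K4At D z
  hQ : ∀ v, D.q y v = D.z ∨ D.q y v = a ∨ D.q y v = b ∨ D.q y v = c
  az : a ≠ D.z
  bz : b ≠ D.z
  cz : c ≠ D.z
  ab : a ≠ b
  bc : b ≠ c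
  ac : a ≠ c
  ha : ∃ v, D.q y v = a
  hb : ∃ v, D.q y v = b
  hc : ∃ v, D.q y v = c

theorem s2 (x y : V) : x + y + y = x := by rw [add_assoc, ZModModule.add_self, add_zero]

theorem s3 (x y : V) : x + (x + y) = y := by rw [← add_assoc, ZModModule.add_self, zero_add]

namespace R2S

variable {y : V} {a b c : Q}

theorem swap (S : R2S D y a b c) : R2S D y b a c where
  he := S.he
  k4 := S.k4
  hQ := fun v => by rcases S.hQ v with h | h | h | h <;> tauto
  az := S.bz
  bz := S.az
  cz := S.cz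
  ab := S.ab.symm
  bc := S.ac
  ac := S.bc
  ha := S.hb
  hb := S.ha
  hc := S.hc

theorem rot (S : R2S D y a b c) : R2S D y b c a where
  he := S.he
  k4 := S.k4
  hQ := fun v => by rcases S.hQ v with h | h | h | h <;> tauto
  az := S.bz
  bz := S.cz
  cz := S.az
  ab := S.bc
  bc := S.ac.symm
  ac := S.ab.symm
  ha := S.hb
  hb := S.hc
  hc := S.ha

/-- additivity at `y` -/
theorem add (S : R2S D y a b c) {v w : V} (hv : D.q y v = a) (hw : D.q y w = b) :
    D.q y (v + w) = c := by
  rcases S.hQ (v + w) with h | h | h | h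
  · exact absurd (hv.symm.trans ((q_eq_iff.2 h).trans hw)) S.ab
  · have h1 : C D y (v + (v + w)) := q_eq_iff.1 (hv.trans h.symm)
    rw [s3] at h1
    exact absurd (hw.symm.trans h1) S.bz
  · have h1 : C D y (v + w + w) := q_eq_iff.1 (h.trans hw.symm)
    rw [s2] at h1
    exact absurd (hv.symm.trans h1) S.az
  · exact h

/-- adding an element of `V_y` -/
theorem addz {v w : V} {g : Q} (hv : D.q y v = g) (hw : C D y w) : D.q y (v + w) = g :=
  qa hv hw

/-- the difference of two elements with the same value -/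
theorem addg {v w : V} {g : Q} (hv : D.q y v = g) (hw : D.q y w = g) : C D y (v + w) :=
  q_eq_iff.1 (hv.trans hw.symm)

/-- `Q_v` contains `a` iff `b`, for `v ∈ Y_c` -/
theorem ab_iff (S : R2S D y a b c) {v : V} (hv : D.q y v = c) : Sg D a v → Sg D b v := by
  rintro ⟨r, hr⟩
  obtain ⟨ua, hua⟩ := S.ha
  have h1 : D.q v (r + y) = D.q y (ua + v) :=
    ETC.add_common (hr.trans hua.symm) (D.symm v y)
  refine ⟨r + y, ?_⟩
  rw [h1]
  have h2 := S.swap.rot.add (v := ua) (w := v) hua hv
  exact h2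

/-- `c`-full elements of `Y_c`: `y V_v = Q_y` -/
theorem full_of (S : R2S D y a b c) {v : V} (hv : D.q y v = c) (h : Sg D a (v + y)) :
    ∃ w, C D v w ∧ D.q y w = a := by
  obtain ⟨ua, hua⟩ := S.ha
  obtain ⟨w, h1, h2⟩ := h.common (s := v + y) ⟨ua, hua⟩
  refine ⟨w, ?_, h2⟩
  have h3 := q_eq'_iff.1 (h1.trans h2.symm)
  rwa [s2] at h3

theorem spl (S : R2S D y a b c) {v w : V} (he : D.e = 0) (hv : D.q y v = c) (hw : C D v w)
    (hyw : D.q y w = a) (g : V) : ∃ u, C D y u ∧ C D v (g + u) := by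
  have hvv : C D v v := C.self he v
  rcases S.hQ g with h | h | h | h
  · exact ⟨g, h, by rw [ZModModule.add_self]; exact C.zero v⟩
  · refine ⟨g + w, addg h hyw, ?_⟩
    rwa [s3]
  · refine ⟨g + (v + w), addg h ?_, ?_⟩
    · rw [add_comm]
      exact S.swap.rot.add hyw hv
    · rw [s3]; exact hvv.add hw
  · refine ⟨g + v, addg h hv, ?_⟩
    rwa [s3]

/-- **the dichotomy of C1** -/
theorem gam (S : R2S D y a b c) [Finite V] {v : V} (hv : D.q y v = c) (h : Sg D a (v + y)) :
    Sg D a v := by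
  by_contra na
  have nb : ¬ Sg D b v := fun h' => na (S.swap.ab_iff hv h')
  obtain ⟨w, h1, h2⟩ := S.full_of hv h
  refine false_of_C1 S.he (y := y) (n := v) (by rw [hv]; exact S.cz) S.k4 ?_ ?_
  · intro u u' hu
    rcases S.hQ u with h3 | h3 | h3 | h3
    · exact Or.inl h3
    · exact absurd ⟨u', hu.symm.trans h3⟩ na
    · exact absurd ⟨u', hu.symm.trans h3⟩ nb
    · exact Or.inr (h3.trans hv.symm)
  · intro g
    obtain ⟨u, k1, k2⟩ := S.spl S.he hv h1 h2 g
    exact ⟨u, k1, k2⟩

theorem hvy (S : R2S D y a b c) {v : V} (hv : D.q y v = c) : D.q y (v + y) = c :=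
  addz hv (C.self S.he y)

theorem gam' (S : R2S D y a b c) [Finite V] {v : V} (hv : D.q y v = c) (h : Sg D a v) :
    Sg D a (v + y) := by
  refine S.gam (S.hvy hv) ?_
  rwa [s2]

/-- `α_c`: the elements of `Y_c` with `a ∉ Q_v` -/
def Al (D : QData V Q) (y : V) (a c : Q) (v : V) : Prop := D.q y v = c ∧ ¬ Sg D a v

theorem al_swap (S : R2S D y a b c) {v : V} (h : Al D y a c v) : Al D y b c v :=
  ⟨h.1, fun h' => h.2 (S.swap.ab_iff h.1 h')⟩

theorem al_y (S : R2S D y a b c) [Finite V] {v : V} (h : Al D y a c v) : Al D y a c (v + y) :=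
  ⟨S.hvy h.1, fun h' => h.2 (S.gam h.1 h')⟩

/-- `V_v < H` for `v ∈ α_c` -/
theorem al_H (S : R2S D y a b c) [Finite V] {v w : V} (h : Al D y a c v) (hw : C D v w) :
    D.q y w ≠ a := by
  intro h1
  apply (S.al_y h).2
  refine ⟨w, ?_⟩
  rw [← h1, q_eq'_iff, s2]
  exact hw

theorem al_H' (S : R2S D y a b c) [Finite V] {v w : V} (h : Al D y a c v) (hw : C D v w) :
    C D y w ∨ D.q y w = c := by
  rcases S.hQ w with h1 | h1 | h1 | h1
  · exact Or.inl h1
  · exact absurd h1 (S.al_H h hw)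
  · exact absurd h1 (S.swap.al_H (S.al_swap h) hw)
  · exact Or.inr h1

/-! ### `D(c) = V` -/

theorem sub_span {v w : V} {r : V} (hr : D.q v r = c) (hw : C D v w) :
    w ∈ Submodule.span (ZMod 2) {s | Sg D c s} := by
  have h1 := Submodule.subset_span (R := ZMod 2) (s := {s | Sg D c s}) (Sg.right hr)
  have h2 := Submodule.subset_span (R := ZMod 2) (s := {s | Sg D c s}) (Sg.right (qa hr hw))
  have h3 := Submodule.add_mem _ h1 h2
  rwa [s3] at h3

theorem y0 (S : R2S D y a b c) : y ≠ 0 := by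
  rintro rfl
  obtain ⟨v, hv⟩ := S.hc
  exact S.cz (hv.symm.trans (C.zero' v))

/-- the slots of `c` span the whole space -/
theorem sp (S : R2S D y a b c) (v : V) : v ∈ Submodule.span (ZMod 2) {s | Sg D c s} := by
  obtain ⟨uc, huc⟩ := S.hc
  obtain ⟨w, s, h1, h2, h3, h4⟩ := S.k4 y S.y0 uc (by
    intro h
    exact S.cz (huc.symm.trans h))
  have hw : D.q y w = c := by
    rw [← huc]
    exact (q_eq_iff.2 h1).symm
  have hs : D.q y s = a ∨ D.q y s = b := by
    rcases S.hQ s with h | h | h | h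
    · exact absurd h h3
    · exact Or.inl h
    · exact Or.inr h
    · exact absurd (addg h huc) h4
  have hws : s ∈ Submodule.span (ZMod 2) {s | Sg D c s} :=
    sub_span (v := w) (r := y) (by rw [D.symm]; exact hw) h2
  have hww : w ∈ Submodule.span (ZMod 2) {s | Sg D c s} :=
    Submodule.subset_span ⟨y, by rw [D.symm]; exact hw⟩
  have hy : ∀ u, C D y u → u ∈ Submodule.span (ZMod 2) {s | Sg D c s} := fun u hu =>
    sub_span huc hu
  have key : ∀ u, u ∈ Submodule.span (ZMod 2) {s | Sg D c s} → ∀ g, C D y (g + u) →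
      g ∈ Submodule.span (ZMod 2) {s | Sg D c s} := by
    intro u hu g hg
    have := Submodule.add_mem _ (hy _ hg) hu
    rwa [s2] at this
  rcases S.hQ v with h | h | h | h
  · exact hy v h
  · rcases hs with hs | hs
    · exact key s hws v (addg h hs)
    · exact key (s + w) (Submodule.add_mem _ hws hww) v (addg h (S.rot.add hs hw))
  · rcases hs with hs | hs
    · exact key (s + w) (Submodule.add_mem _ hws hww) v (addg h (S.swap.rot.add hs hw))
    · exact key s hws v (addg h hs)
  · exact key w hww v (addg h hw)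

/-! ### Theorem I -/

theorem ns (S : R2S D y a b c) {u r : V} (h : D.q u r = c) : NS D c u r :=
  ⟨S.he, S.cz, h, S.sp⟩

theorem pp_act (S : R2S D y a b c) {u r : V} (h : D.q u r = c) (v : V) :
    ph D v * pp D u r = pp D u r := (S.ns h).act v

theorem pp_self (x : V) : ph D x * ph D x = 1 := ph_self x

/-- the ideal of `c` is `{0, c}` -/
theorem mul_cl (S : R2S D y a b c) {u r : V} (h : D.q u r = c) (t : WR D) :
    t * pp D u r = 0 ∨ t * pp D u r = pp D u r := by
  obtain ⟨l, rfl⟩ := ETE8.exists_fm (S := D) t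
  have h2 := two_zero S.he
  induction l with
  | nil => left; rw [fm_nil, zero_mul]
  | cons v l ih =>
    have e1 : fm D (v :: l) = ph D v + fm D l := rfl
    rw [e1, add_mul, S.pp_act h]
    rcases ih with ih | ih
    · right; rw [ih, add_zero]
    · left; rw [ih]; linear_combination pp D u r * h2

/-- the quotient of the Witt ring by `c` -/
abbrev QR (D : QData V Q) (u r : V) : Type := WR D ⧸ Ideal.span {pp D u r}

/-- the image of `v` -/
noncomputable def br (D : QData V Q) (u r : V) (v : V) : QR D u r :=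
  Ideal.Quotient.mk _ (ph D v)

theorem PP_eq (u r x m : V) :
    PP (br D u r) x m = Ideal.Quotient.mk _ (pp D x m) := by
  show (1 - Ideal.Quotient.mk _ (ph D x)) * (1 - Ideal.Quotient.mk _ (ph D m)) =
    Ideal.Quotient.mk _ ((1 - ph D x) * (1 - ph D m))
  rw [map_mul, map_sub, map_sub, map_one]

theorem mk_eq (S : R2S D y a b c) {u r : V} (h : D.q u r = c) {t t' : WR D} :
    (Ideal.Quotient.mk (Ideal.span {pp D u r}) t = Ideal.Quotient.mk _ t') ↔
      t = t' ∨ t = t' + pp D u r := by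
  rw [Ideal.Quotient.eq, Ideal.mem_span_singleton']
  constructor
  · rintro ⟨k, hk⟩
    rcases S.mul_cl h k with h1 | h1
    · left
      rw [h1] at hk
      linear_combination -hk
    · right
      rw [h1] at hk
      linear_combination -hk
  · rintro (rfl | rfl)
    · exact ⟨0, by ring⟩
    · exact ⟨1, by ring⟩

/-- zero modulo `c` -/
theorem PP_zero (S : R2S D y a b c) {u r : V} (h : D.q u r = c) {x m : V} :
    PP (br D u r) x m = 0 ↔ C D x m ∨ D.q x m = c := by
  rw [PP_eq, ← map_zero (Ideal.Quotient.mk _), S.mk_eq h, zero_add]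
  refine or_congr q_eq_zero_iff.symm ?_
  constructor
  · intro h1
    rw [← h]
    exact ETC.q_eq_iff.2 h1
  · intro h1
    exact prod_of_q_eq_pp (h1.trans h.symm)

/-- equality modulo `c` with a slot on the right -/
theorem PP_slot (S : R2S D y a b c) {u r : V} (h : D.q u r = c) {x m x' m' k : V}
    (hx' : D.q x' k = c) (hP : PP (br D u r) x m = PP (br D u r) x' m') :
    D.q x m = D.q x' m' ∨ D.q x m = D.q x' (m' + k) := by
  rw [PP_eq, PP_eq, S.mk_eq h] at hP
  rcases hP with h1 | h1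
  · exact Or.inl (ETC.q_eq_iff.2 h1)
  · right
    refine ETC.q_eq_iff.2 ?_
    have e1 : pp D x' (m' + k) = pp D x' m' + pp D u r := by
      rw [pp_add', prod_of_q_eq_pp (hx'.trans h.symm), S.pp_act h]
    exact h1.trans e1.symm

theorem PP_of_q {u r x m x' m' : V} (h : D.q x m = D.q x' m') :
    PP (br D u r) x m = PP (br D u r) x' m' := by
  rw [PP_eq, PP_eq, prod_of_q_eq_pp h]

/-- the structure of Theorem I -/
theorem ti (S : R2S D y a b c) {ua uc : V} (hua : D.q y ua = a) (huc : D.q y uc = c) :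
    TI (br D y uc) (Sg D c) y (PP (br D y uc) y ua) where
  two := by
    rw [← map_ofNat (Ideal.Quotient.mk (Ideal.span {pp D y uc})) 2, two_zero S.he, map_zero]
  add := fun x m => by
    unfold br
    rw [ph_add, map_mul]
  zero := by
    unfold br
    rw [ph_zero, map_one]
  hy := by
    intro v
    rcases S.hQ v with h | h | h | h
    · exact Or.inl ((S.PP_zero huc).2 (Or.inl h))
    · exact Or.inr (PP_of_q (h.trans hua.symm))
    · right
      rw [PP_eq, PP_eq, S.mk_eq huc]
      right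
      have h1 : D.q y (ua + uc) = b := S.swap.rot.add hua huc
      rw [prod_of_q_eq_pp (h.trans h1.symm), pp_add', S.pp_act huc]
    · exact Or.inl ((S.PP_zero huc).2 (Or.inr h))
  inv := by
    intro v
    rw [PP_eq]
    unfold br
    rw [← map_mul, S.rot.pp_act hua]
  ne := by
    intro h
    rcases (S.PP_zero huc).1 h with h1 | h1
    · exact S.az (hua.symm.trans h1)
    · exact S.ac (hua.symm.trans h1)
  link := by
    have key : ∀ x x' m m', Sg D c x' → PP (br D y uc) x m = PP (br D y uc) x' m' →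
        ∃ z, PP (br D y uc) x z = PP (br D y uc) x m ∧
          PP (br D y uc) x' z = PP (br D y uc) x m := by
      rintro x x' m m' ⟨k, hk⟩ h
      rcases S.PP_slot huc hk h with h1 | h1
      · obtain ⟨z, h2, h3⟩ := D.link x m x' m' h1
        exact ⟨z, PP_of_q h2.symm, PP_of_q (h1.trans h3).symm⟩
      · obtain ⟨z, h2, h3⟩ := D.link x m x' (m' + k) h1
        exact ⟨z, PP_of_q h2.symm, PP_of_q (h1.trans h3).symm⟩
    rintro x x' m m' (hx | hx) h
    · obtain ⟨z, h1, h2⟩ := key x' x m' m hx h.symm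
      exact ⟨z, by rw [h2, h], by rw [h1, h]⟩
    · exact key x x' m m' hx h

/-- **Theorem I** in the structure -/
theorem thmI (S : R2S D y a b c) [Finite V] {s d : V} (hs : Al D y a c s) (hd : D.q y d = c)
    {x n : V} (hx : C D y x ∨ D.q y x = c) (hn : D.q y n = a ∨ D.q y n = b) :
    D.q d x ≠ D.q s n := by
  obtain ⟨ua, hua⟩ := S.ha
  have T := S.ti hua hd
  have yc : ∀ v, D.q y v = c → Sg D c v := fun v hv => Sg.right hv
  have hN : ∀ n, PP (br D y d) y n = PP (br D y d) y ua ↔ D.q y n = a ∨ D.q y n = b := by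
    intro n
    constructor
    · intro h
      rcases S.hQ n with h1 | h1 | h1 | h1
      · exact absurd (h ▸ (S.PP_zero hd).2 (Or.inl h1)) T.ne
      · exact Or.inl h1
      · exact Or.inr h1
      · exact absurd (h ▸ (S.PP_zero hd).2 (Or.inr h1)) T.ne
    · intro h
      refine (T.hy n).resolve_left fun h0 => ?_
      rcases (S.PP_zero hd).1 h0 with h1 | h1 <;> rcases h with h2 | h2
      · exact S.az (h2.symm.trans h1)
      · exact S.bz (h2.symm.trans h1)
      · exact S.ac (h2.symm.trans h1)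
      · exact S.bc (h2.symm.trans h1)
  intro hq
  refine T.main (s := s) (d := d) (yc s hs.1) (yc _ (S.hvy hs.1)) ?_ ?_
    ((S.PP_zero hd).2 (Or.inr hd)) (yc d hd) ?_ ((S.PP_zero hd).2 hx) ((hN n).2 hn)
    (PP_of_q hq)
  · -- values zero
    intro n hn h
    rw [hN] at hn
    rcases (S.PP_zero hd).1 h with h1 | h1
    · rcases hn with hn | hn
      · exact S.al_H hs h1 hn
      · exact S.swap.al_H (S.al_swap hs) h1 hn
    · have h2 : C D s (n + y) := q_eq_iff.1 (h1.trans (by rw [D.symm]; exact hs.1.symm))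
      have yy := C.self S.he y
      rcases hn with hn | hn
      · exact S.al_H hs h2 (addz hn yy)
      · exact S.swap.al_H (S.al_swap hs) h2 (addz hn yy)
  · -- values in `{a, b}`
    intro n hn h
    rcases S.PP_slot hd (x := s) (m := n) (x' := y) (m' := ua) hd h with h1 | h1
    · exact hs.2 ⟨n, h1.trans hua⟩
    · have h2 : D.q y (ua + d) = b := S.swap.rot.add hua hd
      exact (S.al_swap hs).2 ⟨n, h1.trans h2⟩
  · intro x hx
    rcases (S.PP_zero hd).1 hx with h1 | h1
    · right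
      have h2 : D.q y (x + d) = c := by rw [add_comm]; exact addz hd h1
      exact ⟨yc _ h2, yc _ (S.hvy h2)⟩
    · left
      exact ⟨yc _ h1, yc _ (S.hvy h1)⟩

/-- `V_{s + t}` does not meet `N` -/
theorem step1a (S : R2S D y a b c) [Finite V] {s t n : V} (hs : Al D y a c s)
    (ht : D.q y t = c) (hta : Sg D a t) (hn : D.q y n = a ∨ D.q y n = b) :
    ¬ C D (s + t) n := by
  intro h
  have h1 : D.q s n = D.q t n := q_eq'_iff.2 h
  obtain ⟨w, k1, k2⟩ := S.full_of ht (S.gam' ht hta)
  obtain ⟨u, l1, l2⟩ := S.spl S.he ht k1 k2 n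
  refine S.thmI hs ht (Or.inl l1) hn (?_ : D.q t u = D.q s n)
  rw [h1]
  exact (q_eq_iff.2 l2).symm

/-- **Step 1** -/
theorem step1 (S : R2S D y a b c) [Finite V] {s t : V} (hs : Al D y a c s)
    (ht : D.q y t = c) (hta : Sg D a t) : ¬ Sg D a (s + t + y) := by
  rintro ⟨r, hr⟩
  obtain ⟨ua, hua⟩ := S.ha
  obtain ⟨w, h1, h2⟩ := (Sg.left hr).common (Sg.left hua)
  refine S.step1a hs ht hta (Or.inl h2) ?_
  have h3 := q_eq'_iff.1 (h1.trans h2.symm)
  rwa [s2] at h3

/-- a slot plus `V_v` is everything -/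
theorem meets (S : R2S D y a b c) {v : V} (hv : D.q y v = c) (x : V) :
    ∃ m, C D v m ∧ Sg D c (x + m) := by
  obtain ⟨r, hr, hrx⟩ := cm_span S.he ⟨y, Sg.left hv⟩ (S.sp (x + y))
  obtain ⟨m, h1, h2⟩ := hr.common (Sg.right hv)
  have h3 : C D v (m + y) := q_eq_iff.1 (h2.trans (by rw [D.symm]; exact hv.symm))
  refine ⟨m + y, h3, ?_⟩
  have h4 : D.q r (m + (x + y)) = c := qa h1 hrx
  refine Sg.right (r := x + (m + y)) (s := r) ?_
  rw [← h4]
  congr 1
  abel

/-- **Step 2** -/
theorem step2 (S : R2S D y a b c) [Finite V] {v x : V} (hv : Al D y b a v)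
    (hx : Al D y a b x) : ¬ Al D y a c (v + x) := by
  intro hn
  obtain ⟨g, h1, h2⟩ := S.rot.meets hv.1 x
  have hvy : D.q v y = a := by rw [D.symm]; exact hv.1
  -- `g ∈ W ∪ Y_a`
  rcases S.rot.swap.al_H' (S.rot.al_swap hv) h1 with h3 | h3
  · have h4 : D.q y (x + g) = b := addz hx.1 h3
    have h5 := S.rot.rot.swap.step1 hx h4 h2
    rw [s3] at h5
    refine h5 (Sg.right (s := v) ?_)
    rw [add_comm]
    exact qa hvy h1
  · have h4 : D.q y (x + g) = c := by
      rw [add_comm]
      exact S.add h3 hx.1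
    have h5 := S.step1 hn h4 h2
    have e1 : v + x + (x + g) + y = y + (v + g) := eo (by
      abel_nf <;> simp only [ch2, ch3, ch4, add_zero, zero_add])
    rw [e1] at h5
    exact h5 (Sg.right (s := v) (qa hvy ((C.self S.he v).add h1)))

/-- **Step 3**, Theorem N: `Y_c = α_a + α_b` -/
theorem star (S : R2S D y a b c) [Finite V] {n : V} (hn : D.q y n = c) :
    ∃ v x, Al D y b a v ∧ Al D y a b x ∧ v + x = n := by
  obtain ⟨g, h1, h2⟩ : ∃ g, ¬ Sg D c g ∧ ¬ Sg D c (n + g) := by
    by_contra hcon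
    push Not at hcon
    exact false_of_N S.he S.cz S.k4 (Sg.right hn) S.sp hcon
  rcases S.hQ g with h | h | h | h
  · exact absurd (Sg.right (addz hn h)) h2
  · have h3 : D.q y (n + g) = b := by
      rw [add_comm]
      exact S.swap.rot.add h hn
    exact ⟨g, n + g, S.rot.swap.al_swap ⟨h, h1⟩, S.rot.rot.al_swap ⟨h3, h2⟩, by
      rw [add_comm, s2]⟩
  · have h3 : D.q y (n + g) = a := by
      rw [add_comm]
      exact S.rot.add h hn
    exact ⟨n + g, g, S.rot.swap.al_swap ⟨h3, h2⟩, S.rot.rot.al_swap ⟨h, h1⟩, s2 n g⟩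
  · exact absurd (Sg.right h) h1

/-- **THEOREM R2** -/
theorem false [Finite V] (S : R2S D y a b c) : False := by
  obtain ⟨ua, hua⟩ := S.ha
  obtain ⟨-, n, -, h1, -⟩ := S.rot.star hua
  have hn : Al D y a c n := S.swap.al_swap h1
  obtain ⟨v, x, h2, h3, h4⟩ := S.star hn.1
  rw [← h4] at hn
  exact S.step2 h2 h3 hn

end R2S

/-- **THEOREM R2**: no element `y` has exactly the four symbols `0, a, b, c` -/
theorem false_of_R2 [Finite V] (he : D.e = 0) (k4 : ∀ z, z ≠ 0 → ETCD2.K4At D z) {y : V}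
    {a b c : Q} (hQ : ∀ v, D.q y v = D.z ∨ D.q y v = a ∨ D.q y v = b ∨ D.q y v = c)
    (az : a ≠ D.z) (bz : b ≠ D.z) (cz : c ≠ D.z) (ab : a ≠ b) (bc : b ≠ c) (ac : a ≠ c)
    (ha : ∃ v, D.q y v = a) (hb : ∃ v, D.q y v = b) (hc : ∃ v, D.q y v = c) : False :=
  R2S.false ⟨he, k4, hQ, az, bz, cz, ab, bc, ac, ha, hb, hc⟩

end Pool.Agent.ETPR
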