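import Pool.Agent.ETPR.PD
import Pool.Agent.ETPR.LawY
import Pool.Agent.ETPN.N4

/-!
**THEOREM S0** (helper30, helper35, on top of helper46's Theorem S): if all nonzero elements
commuting with one slot `u` of one symbol `c ≠ 0` are slots of `c`, some `x0` with `q (u, x0) = c`
has `q (x0, s) ∈ {0, c}` for all slots `s` of `c`; such a hub is impossible under `K4At`.
Full linkage, set-valued.
-/

set_option autoImplicit false
set_option linter.unusedSectionVars false
set_option linter.unusedSimpArgs false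
set_option linter.unnecessarySeqFocus false

namespace Pool.Agent.ETPR

open Pool.Agent.Helper58.PLine (QData)
open Pool.Agent.ETCP
open Pool.Agent.ETPF
open Pool.Agent.ETPG
open Pool.Agent.ETPT
open ETC (ind ind_true ind_false ind_and ind_congr ind_nonneg ind_le sum_ind_shift sg zm
  exists_dual_sep)

variable {V Q : Type} [AddCommGroup V] [Module (ZMod 2) V] {D : QData V Q}

variable (D) in
/-- `M_x = {y : x y ∈ {0, c}}` -/
def MM (c : Q) (x : V) : Submodule (ZMod 2) V where
  carrier := {y | C D x y ∨ D.q x y = c}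
  add_mem' := by
    rintro a b (ha | ha) (hb | hb)
    · exact Or.inl (ha.add hb)
    · right; rw [add_comm]; exact qa hb ha
    · exact Or.inr (qa ha hb)
    · exact Or.inl (q_eq_iff.1 (ha.trans hb.symm))
  zero_mem' := Or.inl (C.zero _)
  smul_mem' := by
    rintro r a ha
    rcases zm r with rfl | rfl
    · rw [zero_smul]; exact Or.inl (C.zero _)
    · rwa [one_smul]

theorem mem_MM {c : Q} {x y : V} : y ∈ MM D c x ↔ C D x y ∨ D.q x y = c := Iff.rfl

theorem mem_MM' {c : Q} {x y : V} : y ∈ MM D c x ↔ x ∈ MM D c y := by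
  rw [mem_MM, mem_MM, D.symm y x]
  exact or_congr_left ⟨C.symm, C.symm⟩

/-- `M_x ∩ M_{x + t} = M_x ∩ M_t` -/
theorem MM_inf {c : Q} {x t z : V} (hx : z ∈ MM D c x) :
    z ∈ MM D c (x + t) ↔ z ∈ MM D c t := by
  rw [mem_MM' (x := x)] at hx
  rw [mem_MM' (x := x + t), mem_MM' (x := t)]
  exact ⟨fun h => by
    have := (MM D c z).add_mem hx h
    rwa [← add_assoc, ZModModule.add_self, zero_add] at this,
    fun h => (MM D c z).add_mem hx h⟩

/-- the condition `x ∈ V_m + V_{m + t}` -/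
theorem mem_RR {m t x : V} :
    x ∈ D.ann m ⊔ D.ann (m + t) ↔ ∃ r, D.q x m = D.q t r := by
  rw [Submodule.mem_sup]
  constructor
  · rintro ⟨v, hv, w, hw, rfl⟩
    refine ⟨w, ?_⟩
    have h1 : D.q m (v + w) = D.q m w := by
      rw [q_eq_iff, add_assoc, ZModModule.add_self, add_zero]
      exact hv
    rw [D.symm, h1]
    exact q_eq'_iff.2 hw
  · rintro ⟨r, hr⟩
    obtain ⟨w, h1, h2⟩ := D.link m x t r (by rw [D.symm]; exact hr)
    refine ⟨x + w, q_eq_iff.1 h1, w, ?_, by rw [add_assoc, ZModModule.add_self, add_zero]⟩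
    have h3 : D.q m w = D.q t w := by rw [← h1, ← h2, D.symm, hr]
    exact q_eq'_iff.1 h3

/-- linkage modulo `c`: `m ∈ M_x + M_{x + t}` inside the span of the slots -/
theorem sup_iff (E : Submodule (ZMod 2) V) {c : Q} {t x : V} (ht : Sg D c t)
    (hE : ∀ s, Sg D c s → ∀ v, C D s v → v ∈ E)
    (hx : x = 0 ∨ Sg D c x ∨ E = ⊤) {m : V} (hm : m ∈ E) :
    (∃ a ∈ E, ∃ b ∈ E, a ∈ MM D c x ∧ b ∈ MM D c (x + t) ∧ a + b = m) ↔
      ∃ r, D.q x m = D.q t r := by
  constructor
  · rintro ⟨a, -, b, -, ha, hb, rfl⟩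
    -- step 1
    have key : ∀ b, b ∈ MM D c (x + t) → ∃ r, D.q x b = D.q t r := by
      intro b hb
      rcases hb with hb | hb
      · exact ⟨b, q_eq'_iff.2 hb⟩
      · obtain ⟨y, h1, h2⟩ := (Sg.left hb).common ht
        have h3 : C D (x + t) (b + y) := q_eq_iff.1 (hb.trans h1.symm)
        have h4 : C D x y := by
          have h5 : D.q (x + t) y = D.q t y := h1.trans h2.symm
          have h6 := q_eq'_iff.1 h5
          exact h6.of_eq (by rw [add_assoc, ZModModule.add_self, add_zero]) rfl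
        refine ⟨b + y, ?_⟩
        rw [← q_eq'_iff.2 h3, q_eq_iff, ← add_assoc, ZModModule.add_self, zero_add]
        exact h4
    rcases ha with ha | ha
    · obtain ⟨r, hr⟩ := key b hb
      refine ⟨r, ?_⟩
      rw [← hr, q_eq_iff, add_assoc, ZModModule.add_self, add_zero]
      exact ha
    · obtain ⟨y, h1, h2⟩ := (Sg.left ha).common ht
      have h3 : C D x (a + y) := q_eq_iff.1 (ha.trans h1.symm)
      have h4 : C D (x + t) y := q_eq'_iff.1 (h1.trans h2.symm)
      obtain ⟨r, hr⟩ := key (b + y) ((MM D c (x + t)).add_mem hb (Or.inl h4))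
      refine ⟨r, ?_⟩
      rw [← hr, q_eq_iff]
      refine h3.of_eq rfl (eo ?_)
      abel_nf <;> simp only [ch2, ch3, ch4, add_zero, zero_add]
  · rintro ⟨r, hr⟩
    rcases hx with rfl | hx | rfl
    · refine ⟨m, hm, 0, E.zero_mem, Or.inl ((C.zero m).symm), Submodule.zero_mem _, add_zero m⟩
    · obtain ⟨w, h1, h2⟩ := D.link x m t r hr
      have h3 : C D x (m + w) := q_eq_iff.1 h1
      have h4 : C D (x + t) w := q_eq'_iff.1 (by rw [← h1, ← h2, hr])
      have h5 : m + w ∈ E := hE x hx _ h3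
      refine ⟨m + w, h5, w, ?_, Or.inl h3, Or.inl h4, by
        rw [add_assoc, ZModModule.add_self, add_zero]⟩
      have := E.add_mem hm h5
      rwa [← add_assoc, ZModModule.add_self, zero_add] at this
    · obtain ⟨w, h1, h2⟩ := D.link x m t r hr
      exact ⟨m + w, Submodule.mem_top, w, Submodule.mem_top, Or.inl (q_eq_iff.1 h1),
        Or.inl (q_eq'_iff.1 (by rw [← h1, ← h2, hr])), by
          rw [add_assoc, ZModModule.add_self, add_zero]⟩

variable (D) in
/-- the family of the subspaces `M_g`, `g ∈ E`, of a subspace `X` -/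
def Ug (c : Q) (E X : Submodule (ZMod 2) V) (g : E) : Submodule (ZMod 2) X :=
  (MM D c (g : V)).comap X.subtype

theorem mem_Ug {c : Q} {E X : Submodule (ZMod 2) V} {g : E} {x : X} :
    x ∈ Ug D c E X g ↔ (x : V) ∈ MM D c (g : V) := Iff.rfl

/-- the product formula -/
theorem prod_eq [Finite V] {c : Q} {E X : Submodule (ZMod 2) V} [Fintype E] {t x : X}
    (ht : Sg D c (t : V)) (hE : ∀ s, Sg D c s → ∀ v, C D s v → v ∈ E)
    (hx : (x : V) = 0 ∨ Sg D c (x : V) ∨ E = ⊤) :
    MU (Ug D c E X) x * MU (Ug D c E X) (x + t) =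
      (∑ m : E, ind ((x : V) ∈ D.ann (m : V) ⊔ D.ann ((m : V) + t))) *
        ∑ z : E, ind ((z : V) ∈ MM D c (t : V) ∧ (x : V) ∈ MM D c (z : V)) := by
  let A : Submodule (ZMod 2) E := (MM D c (x : V)).comap E.subtype
  let B : Submodule (ZMod 2) E := (MM D c ((x : V) + t)).comap E.subtype
  have hA : ∀ z : E, z ∈ A ↔ (z : V) ∈ MM D c (x : V) := fun z => Iff.rfl
  have hB : ∀ z : E, z ∈ B ↔ (z : V) ∈ MM D c ((x : V) + t) := fun z => Iff.rfl
  have h1 : MU (Ug D c E X) x = (Nat.card A : ℤ) := by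
    rw [← sum_ind_card]
    refine Finset.sum_congr rfl fun g _ => ind_congr ?_
    rw [mem_Ug, hA, mem_MM']
  have h2 : MU (Ug D c E X) (x + t) = (Nat.card B : ℤ) := by
    rw [← sum_ind_card]
    refine Finset.sum_congr rfl fun g _ => ind_congr ?_
    rw [mem_Ug, hB, mem_MM']
    rfl
  have h3 : (Nat.card ↥(A ⊔ B) : ℤ) =
      ∑ m : E, ind ((x : V) ∈ D.ann (m : V) ⊔ D.ann ((m : V) + t)) := by
    rw [← sum_ind_card]
    refine Finset.sum_congr rfl fun m _ => ind_congr ?_
    rw [mem_RR, ← sup_iff E ht hE hx m.2, Submodule.mem_sup]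
    constructor
    · rintro ⟨a, ha, b, hb, rfl⟩
      exact ⟨a, a.2, b, b.2, ha, hb, rfl⟩
    · rintro ⟨a, ha, b, hb, h4, h5, h6⟩
      exact ⟨⟨a, ha⟩, h4, ⟨b, hb⟩, h5, Subtype.ext h6⟩
  have h4 : (Nat.card ↥(A ⊓ B) : ℤ) =
      ∑ z : E, ind ((z : V) ∈ MM D c (t : V) ∧ (x : V) ∈ MM D c (z : V)) := by
    rw [← sum_ind_card]
    refine Finset.sum_congr rfl fun z _ => ind_congr ?_
    rw [Submodule.mem_inf, hA, hB, ← mem_MM', and_comm]
    exact and_congr_left fun h => MM_inf (mem_MM'.1 h)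
  rw [h1, h2, ← h3, ← h4]
  exact_mod_cast card_sup_inf A B

/-- the autocorrelation at a slot is positive definite -/
theorem corr_nonneg [Finite V] {c : Q} {E X : Submodule (ZMod 2) V} [Fintype E] [Fintype X]
    {t : X} (ht : Sg D c (t : V)) (hE : ∀ s, Sg D c s → ∀ v, C D s v → v ∈ E)
    (hX : ∀ x : X, (x : V) = 0 ∨ Sg D c (x : V) ∨ E = ⊤) (l : ETC.D X) :
    0 ≤ ∑ x, sg (l x) * (MU (Ug D c E X) x * MU (Ug D c E X) (x + t)) := by
  have h1 : ∑ x, sg (l x) * (MU (Ug D c E X) x * MU (Ug D c E X) (x + t)) =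
      ∑ m : E, ∑ z : E, ind ((z : V) ∈ MM D c (t : V)) *
        ∑ x : X, sg (l x) * ind (x ∈ (D.ann (m : V) ⊔ D.ann ((m : V) + t)).comap X.subtype ⊓
          Ug D c E X z) := by
    have e : ∀ x : X, sg (l x) * (MU (Ug D c E X) x * MU (Ug D c E X) (x + t)) =
        ∑ m : E, ∑ z : E, ind ((z : V) ∈ MM D c (t : V)) *
          (sg (l x) * ind (x ∈ (D.ann (m : V) ⊔ D.ann ((m : V) + t)).comap X.subtype ⊓
            Ug D c E X z)) := by
      intro x
      rw [prod_eq ht hE (hX x), Finset.sum_mul_sum, Finset.mul_sum]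
      refine Finset.sum_congr rfl fun m _ => ?_
      rw [Finset.mul_sum]
      refine Finset.sum_congr rfl fun z _ => ?_
      rw [Submodule.mem_inf, ind_and, ind_and, mem_Ug, Submodule.mem_comap,
        Submodule.subtype_apply]
      ring
    simp only [e]
    rw [Finset.sum_comm]
    refine Finset.sum_congr rfl fun m _ => ?_
    rw [Finset.sum_comm]
    refine Finset.sum_congr rfl fun z _ => ?_
    rw [Finset.mul_sum]
  rw [h1]
  exact Finset.sum_nonneg fun m _ => Finset.sum_nonneg fun z _ =>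
    mul_nonneg (ind_nonneg _) (sub_sum_nonneg _ _)

/-- **Theorem S modulo `c`**: a subspace `X` whose nonzero elements are slots of `c`; if every
`g` in the span `E` of the slots is killed modulo `c` by some `x ∈ X` with `al x = 1`, some such
`x` kills all of `E` modulo `c` -/
theorem hub_of_cover [Finite V] {c : Q} {E X : Submodule (ZMod 2) V}
    (hE : ∀ s, Sg D c s → ∀ v, C D s v → v ∈ E)
    (hX : ∀ x : X, (x : V) = 0 ∨ Sg D c (x : V)) (al : ETC.D X)
    (hal : ∀ g ∈ E, ∃ x : X, al x = 1 ∧ (x : V) ∈ MM D c g) :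
    ∃ x : X, al x = 1 ∧ ∀ g ∈ E, (x : V) ∈ MM D c g := by
  have := Fintype.ofFinite E
  obtain ⟨x0, h1, h2⟩ := exists_hub (I := E) (U := Ug D c E X) (al := al) (by
    intro g hg
    obtain ⟨x, h1, h2⟩ := hal g g.2
    have h3 : x ∈ LinearMap.ker al := hg h2
    rw [LinearMap.mem_ker, h1] at h3
    exact one_ne_zero h3) (by
    intro _ l t _ _
    rcases hX t with h | h
    · have ht : t = 0 := Subtype.ext h
      subst ht
      simp only [add_zero]
      exact sum_sq_nonneg _ _
    · exact corr_nonneg h hE (fun x => (hX x).imp_right Or.inl) l)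
  exact ⟨x0, h1, fun g hg => h2 ⟨g, hg⟩⟩

/-- **THEOREM S0**: `V_u - 0` consists of slots of `c`: there is a hub. -/
theorem exists_hub_S0 [Finite V] (he : D.e = 0) {c : Q} (cne : c ≠ D.z) {u : V} (su : Sg D c u)
    (hu : ∀ w, w ≠ 0 → C D u w → Sg D c w) :
    ∃ x, D.q u x = c ∧ ∀ s, Sg D c s → C D x s ∨ D.q x s = c := by
  obtain ⟨r, hr⟩ := su
  have su : Sg D c u := ⟨r, hr⟩
  -- the subspace `X = M_u`
  have hX : ∀ x : MM D c u, (x : V) = 0 ∨ Sg D c (x : V) := by
    rintro ⟨x, hx | hx⟩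
    · by_cases h : x = 0
      · exact Or.inl h
      · exact Or.inr (hu x h hx)
    · exact Or.inr (Sg.right hx)
  have hE : ∀ s, Sg D c s → ∀ v, C D s v → v ∈ Submodule.span (ZMod 2) {s | Sg D c s} := by
    rintro s ⟨y, hy⟩ v hv
    have h1 := Submodule.subset_span (R := ZMod 2) (s := {s | Sg D c s}) (Sg.right hy)
    have h2 := Submodule.subset_span (R := ZMod 2) (s := {s | Sg D c s}) (Sg.right (qa hy hv))
    have h3 := Submodule.add_mem _ h1 h2
    rwa [← add_assoc, ZModModule.add_self, zero_add] at h3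
  -- the functional
  have hr' : (⟨r, Or.inr hr⟩ : MM D c u) ∉ (D.ann u).comap (MM D c u).subtype := by
    intro h
    have h1 : D.q u r = D.z := h
    exact cne (hr.symm.trans h1)
  obtain ⟨al, h1, h2⟩ := exists_dual_sep hr'
  have al1 : ∀ x : MM D c u, D.q u x = c → al x = 1 := by
    intro x hx
    have h3 := h2 (x + ⟨r, Or.inr hr⟩) (q_eq_iff.1 (hx.trans hr.symm))
    rw [map_add, h1] at h3
    rcases zm (al x) with h | h
    · rw [h] at h3; exact absurd h3 (by decide)
    · exact h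
  -- the covering
  have hal : ∀ g ∈ Submodule.span (ZMod 2) {s | Sg D c s},
      ∃ x : MM D c u, al x = 1 ∧ (x : V) ∈ MM D c g := by
    intro g hg
    by_cases sgg : Sg D c g
    · obtain ⟨y, h3, h4⟩ := su.common sgg
      exact ⟨⟨y, Or.inr h3⟩, al1 _ h3, Or.inr h4⟩
    · obtain ⟨s, hs, hgs⟩ := cm_span he ⟨u, su⟩ hg
      have h5 : Sg D c (u + g) := add_slot su (fun d hd nd s hs => by
        by_cases h0 : d = 0
        · rw [h0, add_zero]; exact hs
        · exact absurd (hu d h0 hd) nd) hs hgs sgg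
      obtain ⟨y, h3, h4⟩ := su.common h5
      refine ⟨⟨y, Or.inr h3⟩, al1 _ h3, Or.inl ?_⟩
      have h6 := q_eq'_iff.1 (h3.trans h4.symm)
      exact h6.of_eq (by rw [← add_assoc, ZModModule.add_self, zero_add]) rfl
  obtain ⟨x, h3, h4⟩ := hub_of_cover hE hX al hal
  refine ⟨x, ?_, fun s hs => ?_⟩
  · rcases x.2 with h | h
    · have := h2 x h
      rw [h3] at this
      exact absurd this one_ne_zero
    · exact h
  · exact mem_MM'.1 (h4 s (Submodule.subset_span hs))

/-- **THEOREM S0**: for no `u` and no `c ≠ 0` all nonzero elements commuting with the slot `u` of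
`c` are slots of `c`. -/
theorem false_of_S0 [Finite V] (he : D.e = 0) {c : Q} (cne : c ≠ D.z)
    (k4 : ∀ z, z ≠ 0 → ETCD2.K4At D z) {u : V} (su : Sg D c u)
    (hu : ∀ w, w ≠ 0 → C D u w → Sg D c w) : False := by
  obtain ⟨x, hx, h⟩ := exists_hub_S0 he cne su hu
  refine ETPN.false_of_pair cne (Sg.right hx) (k4 x ?_) h
  rintro rfl
  exact cne (hx.symm.trans (C.zero u))

end Pool.Agent.ETPR
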