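import Pool.Agent.ETPR.N

/-!
**THEOREM I** (helper33, note 2952), abstract form: `br : V → R` is multiplicative with values in a
ring with `2 = 0` (the Witt ring modulo a set of symbols), `y` has only the two values `0` and `E`,
the pairs with one element in `Sl` are linked.  If the values of `s` on `N = {n : y n = E}` avoid
`0, E`, they avoid the values of `d` on `H = {x : y x = 0}`.
-/

set_option autoImplicit false
set_option linter.unusedSectionVars false
set_option linter.unusedSimpArgs false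
set_option linter.unnecessarySeqFocus false

namespace Pool.Agent.ETPR

open Pool.Agent.Helper58.PLine (QData)
open Pool.Agent.ETCP
open ETC (ind ind_true ind_false ind_and ind_congr ind_nonneg ind_le sum_ind_shift)

section
variable {V R : Type} [AddCommGroup V] [Module (ZMod 2) V] [CommRing R]

/-- the symbol of `x, m` in the ring -/
def PP (br : V → R) (x m : V) : R := (1 - br x) * (1 - br m)

/-- the setting of Theorem I -/
structure TI (br : V → R) (Sl : V → Prop) (y : V) (E : R) : Prop where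
  two : (2 : R) = 0
  add : ∀ x m, br (x + m) = br x * br m
  zero : br 0 = 1
  hy : ∀ v, PP br y v = 0 ∨ PP br y v = E
  inv : ∀ v, br v * E = E
  ne : E ≠ 0
  link : ∀ x x' m m', (Sl x ∨ Sl x') → PP br x m = PP br x' m' →
    ∃ z, PP br x z = PP br x m ∧ PP br x' z = PP br x m

namespace TI

variable {br : V → R} {Sl : V → Prop} {y : V} {E : R}

theorem symm (x m : V) : PP br x m = PP br m x := mul_comm _ _

theorem sq (T : TI br Sl y E) (x : V) : br x * br x = 1 := by
  rw [← T.add, ZModModule.add_self, T.zero]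

theorem self (T : TI br Sl y E) (x : V) : PP br x x = 0 := by
  unfold PP
  linear_combination T.sq x + (1 - br x) * T.two

theorem padd (T : TI br Sl y E) (x m n : V) :
    PP br x (m + n) = PP br x m + br m * PP br x n := by
  unfold PP
  rw [T.add]
  ring

theorem padd' (T : TI br Sl y E) (x x' m : V) :
    PP br (x + x') m = PP br x m + br x * PP br x' m := by
  unfold PP
  rw [T.add]
  ring

theorem pinv (T : TI br Sl y E) (x m : V) : br m * PP br x m = PP br x m := by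
  unfold PP
  linear_combination (br x - 1) * T.sq m + (1 - br x) * (br m - 1) * T.two

/-- `g + g = 0` -/
theorem gg (T : TI br Sl y E) (g : R) : g + g = 0 := by
  linear_combination g * T.two

theorem z1 (T : TI br Sl y E) {x m n : V} {g : R} (h : PP br x m = g) (h' : PP br x n = g) :
    PP br x (m + n) = 0 := by
  have h1 := T.pinv x m
  rw [T.padd, h']
  rw [h] at h1 ⊢
  rw [h1, T.gg]

theorem z2 (T : TI br Sl y E) {x m n : V} {g : R} (h : PP br x m = g) (h' : PP br x n = 0) :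
    PP br x (m + n) = g := by
  rw [T.padd, h, h', mul_zero, add_zero]

theorem z2' (T : TI br Sl y E) {x m n : V} {g : R} (h : PP br x m = 0) (h' : PP br x n = g) :
    PP br x (m + n) = g := by
  rw [add_comm]; exact T.z2 h' h

theorem z3 (T : TI br Sl y E) {x x' m : V} {g : R} (h : PP br x m = g) (h' : PP br x' m = 0) :
    PP br (x + x') m = g := by
  rw [symm, T.z2 (g := g)]
  · rwa [symm]
  · rwa [symm]

/-- adding an element with value `E` on the left -/
theorem z4 (T : TI br Sl y E) {x x' m : V} {g : R} (h : PP br x m = g) (h' : PP br x' m = E) :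
    PP br (x + x') m = g + E := by
  rw [T.padd', h, h', T.inv]

theorem z5 (T : TI br Sl y E) {x m n : V} {g : R} (h : PP br x m = g)
    (h' : PP br x n = g + E) : PP br x (m + n) = E := by
  have h1 := T.pinv x m
  rw [T.padd, h', mul_add, T.inv]
  rw [h] at h1 ⊢
  rw [h1]
  linear_combination g * T.two

theorem z6 (T : TI br Sl y E) {x m n : V} {g : R} (h : PP br x m = g)
    (h' : PP br x n = E) : PP br x (m + n) = g + E := by
  rw [T.padd, h', h, T.inv]

/-- cancellation on the left -/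
theorem z7 (T : TI br Sl y E) {x x' m : V} {g : R} (h : PP br (x + x') m = g)
    (h' : PP br x m = g) : PP br x' m = 0 := by
  have h1 : PP br m (x + (x + x')) = 0 := T.z1 (g := g) (by rwa [symm]) (by rwa [symm])
  rwa [← add_assoc, ZModModule.add_self, zero_add, symm] at h1

theorem ee (T : TI br Sl y E) (g : R) : g + E + E = g := by
  linear_combination E * T.two

theorem not0 (T : TI br Sl y E) {v : V} (h : PP br y v ≠ 0) : PP br y v = E :=
  (T.hy v).resolve_left h

theorem addN (T : TI br Sl y E) {v n : V} (h : PP br y v = 0) (h' : PP br y n = E) :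
    PP br y (v + n) = E := T.z2' h h'

theorem subN (T : TI br Sl y E) {v n : V} (h : PP br y (v + n) = 0) (h' : PP br y n = E) :
    PP br y v = E := by
  have := T.z2 h' h
  rwa [add_comm v, ← add_assoc, ZModModule.add_self, zero_add] at this

section
variable {s n1 : V} {h : R}

/-- (F1) for `s + y` -/
theorem f1y (T : TI br Sl y E) (f1 : ∀ n, PP br y n = E → PP br s n ≠ E) {n : V}
    (hn : PP br y n = E) : PP br (s + y) n ≠ 0 := by
  intro h0
  apply f1 n hn
  have h1 := T.z4 (x := s + y) (x' := y) h0 hn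
  rwa [add_assoc, ZModModule.add_self, add_zero, zero_add] at h1

/-- (F2) -/
theorem f2 (T : TI br Sl y E) (ss : Sl s) (f0 : ∀ n, PP br y n = E → PP br s n ≠ 0)
    (hn1 : PP br y n1 = E) (hs : PP br s n1 = h) {v w : V} (hv : PP br v w = h) :
    ∃ z, PP br y z = E ∧ PP br v z = h ∧ PP br (v + y) z = h + E := by
  obtain ⟨z, h1, h2⟩ := T.link v s w n1 (Or.inr ss) (hv.trans hs.symm)
  rw [hv] at h1 h2
  have h3 : PP br s (z + n1) = 0 := T.z1 h2 hs
  have h4 : PP br y (z + n1) = 0 := by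
    by_contra h5
    exact f0 _ (T.not0 h5) h3
  have h6 := T.subN h4 hn1
  exact ⟨z, h6, h1, T.z4 h1 h6⟩

/-- (F2), the converse -/
theorem f2' (T : TI br Sl y E) (ssy : Sl (s + y)) (f1 : ∀ n, PP br y n = E → PP br s n ≠ E)
    (hn1 : PP br y n1 = E) (hs : PP br s n1 = h) {v w : V} (hv : PP br v w = h + E) :
    ∃ z, PP br y z = E ∧ PP br v z = h + E ∧ PP br (v + y) z = h := by
  have h0 : PP br (s + y) n1 = h + E := T.z4 hs hn1
  obtain ⟨z, h1, h2⟩ := T.link v (s + y) w n1 (Or.inr ssy) (hv.trans h0.symm)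
  rw [hv] at h1 h2
  have h3 : PP br (s + y) (z + n1) = 0 := T.z1 h2 h0
  have h4 : PP br y (z + n1) = 0 := by
    by_contra h5
    exact T.f1y f1 (T.not0 h5) h3
  have h6 := T.subN h4 hn1
  refine ⟨z, h6, h1, ?_⟩
  rw [T.z4 h1 h6, T.ee]

/-- (F3): `v` with a value `h` on `H` has the value `E` on `H` -/
theorem f3 (T : TI br Sl y E) (ss : Sl s) (f0 : ∀ n, PP br y n = E → PP br s n ≠ 0)
    (hn1 : PP br y n1 = E) (hs : PP br s n1 = h) {v w : V} (hw : PP br y w = 0)
    (hv : PP br v w = h) : ∃ z, PP br y z = 0 ∧ PP br v z = E := by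
  obtain ⟨z2, k1, k2, -⟩ := T.f2 ss f0 hn1 hs hv
  obtain ⟨z1, l1, -, l3⟩ := T.f2 ss f0 hn1 hs (T.z3 hv hw)
  rw [add_assoc, ZModModule.add_self, add_zero] at l3
  exact ⟨z2 + z1, T.z1 k1 l1, T.z5 k2 l3⟩

/-- (F3): a value `h + E` on `H` gives a value `h` on `H` -/
theorem f3' (T : TI br Sl y E) (ssy : Sl (s + y)) (f1 : ∀ n, PP br y n = E → PP br s n ≠ E)
    (hn1 : PP br y n1 = E) (hs : PP br s n1 = h) {v w : V} (hw : PP br y w = 0)
    (hv : PP br v w = h + E) : ∃ z, PP br y z = 0 ∧ PP br v z = h := by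
  obtain ⟨z2, k1, k2, -⟩ := T.f2' ssy f1 hn1 hs hv
  obtain ⟨z1, l1, -, l3⟩ := T.f2' ssy f1 hn1 hs (T.z3 hv hw)
  rw [add_assoc, ZModModule.add_self, add_zero] at l3
  have h1 : PP br v (z1 + z2) = E := T.z5 l3 k2
  refine ⟨w + (z1 + z2), T.z2' hw (T.z1 l1 k1), ?_⟩
  rw [T.z6 hv h1, T.ee]

/-- (F4) -/
theorem f4 (T : TI br Sl y E) (ss : Sl s) (f0 : ∀ n, PP br y n = E → PP br s n ≠ 0)
    (hn1 : PP br y n1 = E) (hs : PP br s n1 = h) {v v' w w' : V} (hw : PP br y w = 0)
    (hv : PP br v w = h) (hw' : PP br y w' = 0) (hv' : PP br v' w' = h)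
    (k : Sl v ∨ Sl v') (ky : Sl (v + y) ∨ Sl (v' + y)) :
    ∃ z, PP br y z = 0 ∧ PP br v z = E ∧ PP br v' z = E := by
  obtain ⟨a, a1, a2⟩ := T.f3 ss f0 hn1 hs hw hv
  obtain ⟨b, b1, b2⟩ := T.f3 ss f0 hn1 hs hw' hv'
  obtain ⟨z, h1, h2⟩ := T.link v v' a b k (a2.trans b2.symm)
  rw [a2] at h1 h2
  rcases T.hy z with hz | hz
  · exact ⟨z, hz, h1, h2⟩
  have a3 := T.z3 a2 a1
  have b3 := T.z3 b2 b1
  obtain ⟨x, g1, g2⟩ := T.link (v + y) (v' + y) a b ky (a3.trans b3.symm)
  rw [a3] at g1 g2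
  rcases T.hy x with hx | hx
  · refine ⟨x, hx, ?_, ?_⟩
    · have := T.z3 g1 hx
      rwa [add_assoc, ZModModule.add_self, add_zero] at this
    · have := T.z3 g2 hx
      rwa [add_assoc, ZModModule.add_self, add_zero] at this
  · have e0 : E + E = 0 := T.gg E
    have g3 := T.z4 g1 hx
    have g4 := T.z4 g2 hx
    rw [add_assoc, ZModModule.add_self, add_zero, e0] at g3 g4
    exact ⟨z + x, T.z1 hz hx, T.z2 h1 g3, T.z2 h2 g4⟩

/-- (F5) -/
theorem f5 (T : TI br Sl y E) {v v' w w' x : V} (hw : PP br y w = 0)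
    (hv : PP br v w = h) (hw' : PP br y w' = 0) (hv' : PP br v' w' = h)
    (k : Sl v ∨ Sl v') (ky : Sl v ∨ Sl (v' + y))
    (hx : PP br y x = 0) (h1 : PP br v x = h) (h2 : PP br v' x = h + E) :
    ∃ z, PP br y z = 0 ∧ PP br v z = h ∧ PP br v' z = h := by
  obtain ⟨a, a1, a2⟩ := T.link v v' w w' k (hv.trans hv'.symm)
  rw [hv] at a1 a2
  rcases T.hy a with ha | ha
  · exact ⟨a, ha, a1, a2⟩
  have b3 := T.z3 hv' hw'
  obtain ⟨b, b1, b2⟩ := T.link v (v' + y) w w' ky (hv.trans b3.symm)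
  rw [hv] at b1 b2
  rcases T.hy b with hb | hb
  · refine ⟨b, hb, b1, ?_⟩
    have := T.z3 b2 hb
    rwa [add_assoc, ZModModule.add_self, add_zero] at this
  · have g3 := T.z4 b2 hb
    rw [add_assoc, ZModModule.add_self, add_zero] at g3
    refine ⟨x + a + b, ?_, ?_, ?_⟩
    · rw [add_assoc]
      exact T.z2 hx (T.z1 ha hb)
    · exact T.z2' (T.z1 h1 a1) b1
    · have e1 : x + a + b = (x + b) + a := by abel
      rw [e1]
      exact T.z2' (T.z1 h2 g3) a2

/-- **THEOREM I** -/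
theorem main [Finite V] (T : TI br Sl y E) (ss : Sl s) (ssy : Sl (s + y))
    (f0 : ∀ n, PP br y n = E → PP br s n ≠ 0) (f1 : ∀ n, PP br y n = E → PP br s n ≠ E)
    {d : V} (hd : PP br y d = 0) (td : Sl d)
    (tx : ∀ x, PP br y x = 0 → (Sl x ∧ Sl (x + y)) ∨ (Sl (x + d) ∧ Sl (x + d + y)))
    {w0 : V} (hw0 : PP br y w0 = 0) (hn1 : PP br y n1 = E) : PP br d w0 ≠ PP br s n1 := by
  intro hh
  obtain ⟨h, hs⟩ : ∃ h, PP br s n1 = h := ⟨_, rfl⟩
  rw [hs] at hh
  have := Fintype.ofFinite V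
  -- (A)
  have hA : ∀ x, PP br y x = 0 → PP br d x = h →
      ∃ g, PP br y g = 0 ∧ PP br g d = 0 ∧ PP br g x = E := by
    intro x hx hdx
    have h1 : PP br x d = h := by rwa [symm]
    have h2 : PP br (x + d) x = h := T.z2' (T.self x |> fun h => by rwa [symm]) hdx |> fun h => by
      rw [T.padd', T.self, zero_add, hdx]
      have := T.pinv d x
      rwa [hdx] at this
    obtain ⟨z, k1, k2, k3⟩ := T.f4 (v := x) (v' := x + d) ss f0 hn1 hs hd h1 hx h2
      ((tx x hx).imp (fun t => t.1) (fun t => t.1)) ((tx x hx).imp (fun t => t.2) (fun t => t.2))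
    refine ⟨z, k1, ?_, by rwa [symm]⟩
    rw [symm]
    exact T.z7 k3 k2
  -- (B)
  have hB : ∀ g, PP br y g = 0 → PP br g d = 0 → ∀ x, PP br y x = 0 → PP br d x = h →
      PP br g x = E → ∃ x', PP br y x' = 0 ∧ PP br d x' = h ∧ PP br g x' = 0 := by
    intro g hg hgd x hx hdx hgx
    have h1 : PP br (d + g) x = h + E := T.z4 hdx hgx
    obtain ⟨w', k1, k2⟩ := T.f3' ssy f1 hn1 hs hx h1
    obtain ⟨z, l1, l2, l3⟩ := T.f5 (v := d) (v' := d + g) hw0 hh k1 k2 (Or.inl td) (Or.inl td)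
      hx hdx h1
    exact ⟨z, l1, l2, T.z7 l3 l2⟩
  -- the count
  let S1 : V → V → Prop := fun g x => (PP br y g = 0 ∧ PP br g d = 0) ∧
    (PP br y x = 0 ∧ PP br d x = h) ∧ PP br g x = E
  let S0 : V → V → Prop := fun g x => (PP br y g = 0 ∧ PP br g d = 0) ∧
    (PP br y x = 0 ∧ PP br d x = h) ∧ PP br g x = 0
  have c1 : ∀ x, ∑ g, ind (S1 g x) = ∑ g, ind (S0 g x) := by
    intro x
    by_cases hx : PP br y x = 0 ∧ PP br d x = h
    · obtain ⟨g0, k1, k2, k3⟩ := hA x hx.1 hx.2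
      refine sum_ind_shift _ _ g0 fun g => ?_
      constructor
      · rintro ⟨⟨m1, m2⟩, -, m3⟩
        have e1 : g + g0 + g0 = g := by rw [add_assoc, ZModModule.add_self, add_zero]
        refine ⟨⟨?_, ?_⟩, hx, ?_⟩
        · rw [← e1]; exact T.z2 m1 k1
        · rw [← e1]; exact T.z3 m2 k2
        · rw [← e1, symm]; exact T.z1 (g := E) (by rwa [symm]) (by rwa [symm])
      · rintro ⟨⟨m1, m2⟩, -, m3⟩
        refine ⟨⟨T.z2 m1 k1, T.z3 m2 k2⟩, hx, ?_⟩
        rw [add_comm]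
        exact T.z3 k3 m3
    · refine Finset.sum_congr rfl fun g _ => ?_
      rw [ind_false fun k => hx k.2.1, ind_false fun k => hx k.2.1]
  have c2 : ∀ g, ∑ x, ind (S1 g x) ≤ ∑ x, ind (S0 g x) := by
    intro g
    by_cases hex : ∃ x, S1 g x
    · obtain ⟨x, ⟨hg1, hg2⟩, ⟨hx1, hx2⟩, hx3⟩ := hex
      obtain ⟨x', k1, k2, k3⟩ := hB g hg1 hg2 x hx1 hx2 hx3
      refine le_of_eq (sum_ind_shift _ _ (x + x') fun u => ?_)
      have e1 : u + (x + x') + (x + x') = u := by rw [add_assoc, ZModModule.add_self, add_zero]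
      have m1 : PP br y (x + x') = 0 := T.z1 hx1 k1
      have m2 : PP br d (x + x') = 0 := T.z1 hx2 k2
      have m3 : PP br g (x + x') = E := T.z2 hx3 k3
      constructor
      · rintro ⟨-, ⟨n1, n2⟩, n3⟩
        refine ⟨⟨hg1, hg2⟩, ⟨?_, ?_⟩, ?_⟩
        · rw [← e1]; exact T.z2 n1 m1
        · rw [← e1]; exact T.z2 n2 m2
        · rw [← e1]; exact T.z1 n3 m3
      · rintro ⟨-, ⟨n1, n2⟩, n3⟩
        exact ⟨⟨hg1, hg2⟩, ⟨T.z2 n1 m1, T.z2 n2 m2⟩, T.z2' n3 m3⟩
    · refine Finset.sum_le_sum fun x _ => ?_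
      rw [ind_false fun k => hex ⟨x, k⟩]
      exact ind_nonneg _
  have z0 : ∀ x, PP br 0 x = 0 := by
    intro x
    unfold PP
    rw [T.zero, sub_self, zero_mul]
  have c3 : ∑ x, ind (S1 0 x) < ∑ x, ind (S0 0 x) := by
    refine Finset.sum_lt_sum (fun x _ => ?_) ⟨w0, Finset.mem_univ _, ?_⟩
    · rw [ind_false fun k => T.ne (by rw [← k.2.2]; exact z0 x)]
      exact ind_nonneg _
    · rw [ind_false fun k => T.ne (by rw [← k.2.2]; exact z0 w0), ind_true]
      · exact one_pos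
      · exact ⟨⟨by rw [symm]; exact z0 y, z0 d⟩, ⟨hw0, hh⟩, z0 w0⟩
  have t1 : ∑ x, ∑ g, ind (S1 g x) = ∑ x, ∑ g, ind (S0 g x) :=
    Finset.sum_congr rfl fun x _ => c1 x
  rw [Finset.sum_comm, Finset.sum_comm (f := fun x g => ind (S0 g x))] at t1
  have t2 : ∑ g, ∑ x, ind (S1 g x) < ∑ g, ∑ x, ind (S0 g x) :=
    Finset.sum_lt_sum (fun g _ => c2 g) ⟨0, Finset.mem_univ _, c3⟩
  exact absurd t1 (ne_of_lt t2)

end

end TI

end

end Pool.Agent.ETPR
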